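import Pool.Agent.H77.SN.Facts
import Pool.Agent.H58.S3.Dual

/-!
# Section 3: the test pairs (Lemma B)
-/

set_option autoImplicit false
set_option linter.unusedSectionVars false
set_option linter.unusedVariables false

open scoped InnerProductSpace Topology ContDiff
open Set Filter

namespace Pool.Agent.H77.SN

open Pool.Agent.H91.GE hiding G1 G11 Nondeg Br exists_br cF smooth_cF Cfg mem_TSet_of_map
open Pool.Agent.H59.LV Pool.Agent.H59.ND Pool.Agent.H59.Zar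

variable {E F : Type*} [NormedAddCommGroup E] [InnerProductSpace ℝ E] [FiniteDimensional ℝ E]
  [NormedAddCommGroup F] [InnerProductSpace ℝ F] [FiniteDimensional ℝ F]
  {S : Set E} {A : E × E → E} {K K₂ : NNReal} {Φ : ℝ → E × E → E × E} {n m : ℕ}

/-- **Lemma B (i).** -/
theorem dual1_TPr (h : GFlow F S A K K₂ Φ) (hdim : Module.finrank ℝ E = Module.finrank ℝ F + n)
    {ζ : E × E → E} {ν : (E × E) × (E × E) → ℝ} {w : E × E} {L : ℝ} (hc : Cls Φ S ζ ν w L)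
    {e'' e' : E} (hd : Dual1 Φ S (w, Φ L w) e'' e') :
    TPr ζ (ν (w, Φ L w)) w.1 (Φ L w).1 e'' e' :=
  Pool.Agent.H58.S3.tpr_of_dual1 h hdim hc hd

/-- **Lemma B (ii).** -/
theorem dual2_TPr (h : GFlow F S A K K₂ Φ) (hdim : Module.finrank ℝ E = Module.finrank ℝ F + n)
    {ζ : E × E → E} {ν : (E × E) × (E × E) → ℝ} {w : E × E} {L : ℝ} (hc : Cls Φ S ζ ν w L)
    (hE : ∀ ξ ∈ TZ Φ S (w, Φ L w), (∀ e ∈ TT Φ S w, ⟪ξ.1, e⟫_ℝ = 0) → ξ.1 = 0)
    {g'' g' : E} (hd : Dual2 Φ S (w, Φ L w) g'' g') :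
    TPr ζ (ν (w, Φ L w)) w.1 (Φ L w).1 g'' g' :=
  Pool.Agent.H58.S3.tpr_of_dual2 h hdim hc hE hd

end Pool.Agent.H77.SN
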