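import Pool.Agent.H77.ND.Main
import Pool.Agent.H59.Zar.Inst

/-!
# Definitions for the theorem: a secure submanifold of dimension at least three is flat

Everything is ambient: `S` is a compact submanifold of `E`, `w : E × E` a unit tangent vector, `Φ`
the geodesic flow (a global smooth flow on `E × E`), `RR` the relation of arbitrarily long orbit
segments, `ZT` the Zariski tangent space (`Pool.Agent.H59.Zar`).
-/

set_option autoImplicit false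

open scoped InnerProductSpace Topology ContDiff
open Set Filter

namespace Pool.Agent.H77.SN

open Pool.Agent.H91.GE hiding G1 G11 Nondeg Br exists_br cF smooth_cF Cfg mem_TSet_of_map
open Pool.Agent.H59.LV Pool.Agent.H59.ND Pool.Agent.H59.Zar

variable {E : Type*} [NormedAddCommGroup E] [InnerProductSpace ℝ E]

/-- The relation: arbitrarily long orbit segments lead from near `p.1` to near `p.2`
(`RS` of `H59/Zar/Inst`). -/
abbrev RR (Φ : ℝ → E × E → E × E) (S : Set E) : Set ((E × E) × (E × E)) := RS Φ S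

/-- The distribution `Y`. -/
noncomputable def YY (Φ : ℝ → E × E → E × E) (S : Set E) (w : E × E) : Submodule ℝ (E × E) :=
  Y (RR Φ S) w

/-- The horizontal part of `Y` (the space `T(w)`; it contains `w.2`). -/
noncomputable def TT (Φ : ℝ → E × E → E × E) (S : Set E) (w : E × E) : Submodule ℝ E :=
  (YY Φ S w).map (LinearMap.fst ℝ E E)

/-- The good unit vectors at which `Y` has dimension `m`. -/
def OO (Φ : ℝ → E × E → E × E) (S : Set E) (m : ℕ) : Set (E × E) :=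
  {w | w ∈ GoodPt (UT S) (RR Φ S) ∧ Module.finrank ℝ (YY Φ S w) = m}

/-- `w` is transverse: `Y` contains no vertical vector. -/
def Tr (Φ : ℝ → E × E → E × E) (S : Set E) (w : E × E) : Prop :=
  ∀ K ∈ YY Φ S w, K.1 = 0 → K = 0

/-- The vertical part (covariant derivative) of a vector `K` tangent to the tangent bundle. -/
noncomputable def tanv (A : E × E → E) (w K : E × E) : E :=
  K.2 - (1 / 2 : ℝ) • fderiv ℝ A w (0, K.1)

/-- The vertical pairs `(ξ'', ξ')` in the Zariski tangent space of the relation. -/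
noncomputable def TZ (Φ : ℝ → E × E → E × E) (S : Set E) (p : (E × E) × (E × E)) :
    Submodule ℝ (E × E) :=
  (ZT (RR Φ S) p).comap ((LinearMap.inr ℝ E E).prodMap (LinearMap.inr ℝ E E))

/-- The end point of the geodesic `(w, L)` is not conjugate to its origin. -/
def NDeg (Φ : ℝ → E × E → E × E) (S : Set E) (w : E × E) (L : ℝ) : Prop :=
  ∀ ξ ∈ ZT S w.1, (fderiv ℝ (Φ L) w (0, ξ)).1 = 0 → ξ = 0

/-- The function `ζ` is good near the pair of points `(x, y)`: smooth, with values in `S` on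
`S × S`, its derivative kills the normal vectors and both partial derivatives are injective. -/
def Gd (S : Set E) (ζ : E × E → E) (x y : E) : Prop :=
  ∃ W : Set (E × E), IsOpen W ∧ (x, y) ∈ W ∧ ContDiffOn ℝ ∞ ζ W ∧
    ∀ q ∈ W, q.1 ∈ S → q.2 ∈ S →
      ζ q ∈ S ∧
      (∀ n : E × E, (∀ e ∈ ZT S q.1, ⟪n.1, e⟫_ℝ = 0) → (∀ e ∈ ZT S q.2, ⟪n.2, e⟫_ℝ = 0) →
        fderiv ℝ ζ q n = 0) ∧
      (∀ a ∈ ZT S q.1, fderiv ℝ ζ q (a, 0) = 0 → a = 0) ∧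
      (∀ b ∈ ZT S q.2, fderiv ℝ ζ q (0, b) = 0 → b = 0)

/-- The output of section 2: the exact return `(w, Φ L w)` is an exact class return of the class
function `ζ`, with factor `ν` (this is `μ⁻¹` of the paper proof). -/
structure Cls (Φ : ℝ → E × E → E × E) (S : Set E) (ζ : E × E → E)
    (ν : (E × E) × (E × E) → ℝ) (w : E × E) (L : ℝ) : Prop where
  mem : w ∈ UT S
  pos : 0 < L
  nd : NDeg Φ S w L
  gd : Gd S ζ w.1 (Φ L w).1
  smooth : ∃ O ∈ 𝓝 (w, Φ L w), ContDiffOn ℝ ∞ ν O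
  ne : ν (w, Φ L w) ≠ 0
  /-- (C1), an identity on the relation near the point -/
  c1 : ∀ᶠ q in 𝓝[RR Φ S] (w, Φ L w),
    fderiv ℝ ζ (q.1.1, q.2.1) (q.1.2, -(ν q • q.2.2)) = 0
  tr : Tr Φ S w
  tr' : Tr Φ S (Φ L w)
  /-- (C2) -/
  c2 : ∀ a ∈ TT Φ S w, ∃ b ∈ TT Φ S (Φ L w), fderiv ℝ ζ (w.1, (Φ L w).1) (a, b) = 0
  c2' : ∀ b ∈ TT Φ S (Φ L w), ∃ a ∈ TT Φ S w, fderiv ℝ ζ (w.1, (Φ L w).1) (a, b) = 0
  /-- (C3): the Jacobi fields which are tangent to the geodesic at `z` form a Lagrangian space -/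
  c3 : ∀ a ∈ ZT (UT S) w, ∀ b ∈ ZT (UT S) w, ∀ c d : ℝ,
    fderiv ℝ ζ (w.1, (Φ L w).1) (a.1, (fderiv ℝ (Φ L) w a).1)
      = c • fderiv ℝ ζ (w.1, (Φ L w).1) (w.2, 0) →
    fderiv ℝ ζ (w.1, (Φ L w).1) (b.1, (fderiv ℝ (Φ L) w b).1)
      = d • fderiv ℝ ζ (w.1, (Φ L w).1) (w.2, 0) → om a b = 0

/-- An exact joint class return (section 2: these are dense in the relation near good points). -/
def JR (Φ : ℝ → E × E → E × E) (S : Set E) (w : E × E) (L : ℝ) : Prop :=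
  ∃ (ζ₁ ζ₂ : E × E → E) (ν₁ ν₂ : (E × E) × (E × E) → ℝ), Cls Φ S ζ₁ ν₁ w L ∧
    Cls Φ S ζ₂ ν₂ w L ∧ ν₁ (w, Φ L w) ≠ ν₂ (w, Φ L w)

/-- Test pairs of the first type. -/
def Dual1 (Φ : ℝ → E × E → E × E) (S : Set E) (p : (E × E) × (E × E)) (e'' e' : E) : Prop :=
  (∃ ξ ∈ TZ Φ S p, ξ.1 = e'') ∧ (∃ ξ ∈ TZ Φ S p, ξ.2 = e') ∧
    ∀ ξ ∈ TZ Φ S p, ⟪ξ.1, e''⟫_ℝ = ⟪ξ.2, e'⟫_ℝ

/-- Test pairs of the second type. -/
def Dual2 (Φ : ℝ → E × E → E × E) (S : Set E) (p : (E × E) × (E × E)) (g'' g' : E) : Prop :=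
  g'' ∈ ZT S p.1.1 ∧ (∀ e ∈ TT Φ S p.1, ⟪g'', e⟫_ℝ = 0) ∧
  g' ∈ ZT S p.2.1 ∧ (∀ e ∈ TT Φ S p.2, ⟪g', e⟫_ℝ = 0) ∧
  ∃ ξ ∈ TZ Φ S p,
    (∃ q r : E, (((0, g''), (q, r)) : (E × E) × (E × E)) ∈ ZT (RR Φ S) p ∧ q - ξ.2 ∈ TT Φ S p.2) ∧
    (∃ q r : E, (((q, r), (0, -g')) : (E × E) × (E × E)) ∈ ZT (RR Φ S) p ∧ q - ξ.1 ∈ TT Φ S p.1)

/-- The first order identity (*). -/
def Star (Φ : ℝ → E × E → E × E) (S : Set E) (p : (E × E) × (E × E)) : Prop :=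
  ∃ α : ℝ, ∀ ξ ∈ TZ Φ S p, ∀ a b : E,
    (((0, a), (ξ.2, b)) : (E × E) × (E × E)) ∈ ZT (RR Φ S) p → ∀ e'' e' : E,
      (Dual1 Φ S p e'' e' ∨ Dual2 Φ S p e'' e') → ⟪a, e''⟫_ℝ - ⟪b, e'⟫_ℝ = α * ⟪ξ.2, e'⟫_ℝ

/-- A test pair for the function `ζ`: the adjoint of `H` sends `e'` to `-ν e''`. -/
def TPr (ζ : E × E → E) (ν : ℝ) (x y e'' e' : E) : Prop :=
  ∀ a b : E, fderiv ℝ ζ (x, y) (a, b) = 0 → ⟪b, e'⟫_ℝ + ν * ⟪a, e''⟫_ℝ = 0

end Pool.Agent.H77.SN
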