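import Pool.Agent.H77.SN.Sec3A
import Pool.Agent.H77.SN.Sec3B
import Pool.Agent.H79.OM.Base
import Pool.Agent.H79.OM.StarJR

/-!
# Section 3: the identity (*) at exact joint class returns
-/

set_option autoImplicit false
set_option linter.unusedSectionVars false
set_option linter.unusedVariables false

open scoped InnerProductSpace Topology ContDiff
open Set Filter

namespace Pool.Agent.H77.SN

open Pool.Agent.H91.GE hiding G1 G11 Nondeg Br exists_br cF smooth_cF Cfg mem_TSet_of_map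
open Pool.Agent.H59.LV Pool.Agent.H59.ND Pool.Agent.H59.Zar

variable {E F : Type*} [NormedAddCommGroup E] [InnerProductSpace ℝ E] [FiniteDimensional ℝ E]
  [NormedAddCommGroup F] [InnerProductSpace ℝ F] [FiniteDimensional ℝ F]
  {S : Set E} {A : E × E → E} {K K₂ : NNReal} {Φ : ℝ → E × E → E × E} {n m : ℕ}

/-- At a nondegenerate exact return every pair of tangent vectors is a base part. -/
theorem exists_base (h : GFlow F S A K K₂ Φ) (hdim : Module.finrank ℝ E = Module.finrank ℝ F + n)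
    {w : E × E} (hw : w ∈ UT S) {L : ℝ} (hL : L ≠ 0) (hnd : NDeg Φ S w L) {a b : E}
    (ha : a ∈ ZT S w.1) (hb : b ∈ ZT S (Φ L w).1) :
    ∃ a' b' : E, (((a, a'), (b, b')) : (E × E) × (E × E)) ∈ ZT (RR Φ S) (w, Φ L w) :=
  Pool.Agent.H79.OM.exists_base h hdim hw hnd ha hb

/-- **(*)** at exact joint class returns. -/
theorem star_of_JR (h : GFlow F S A K K₂ Φ) (hdim : Module.finrank ℝ E = Module.finrank ℝ F + n)
    {w : E × E} {L : ℝ} (hj : JR Φ S w L)
    (hE : ∀ ξ ∈ TZ Φ S (w, Φ L w), (∀ e ∈ TT Φ S w, ⟪ξ.1, e⟫_ℝ = 0) → ξ.1 = 0) :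
    Star Φ S (w, Φ L w) :=
  Pool.Agent.H79.OM.star_of_JR h hdim hj hE

end Pool.Agent.H77.SN
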