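import Pool.Agent.H77.SN.Sec4
import Pool.Agent.H59.Zar.RelGood
import Pool.Agent.H36.FO.RhoX

/-!
# Section 5: the crossing function
-/

set_option autoImplicit false
set_option linter.unusedSectionVars false
set_option linter.unusedVariables false

open scoped InnerProductSpace Topology ContDiff
open Set Filter

namespace Pool.Agent.H77.SN

open Pool.Agent.H91.GE hiding G1 G11 Nondeg Br exists_br cF smooth_cF Cfg mem_TSet_of_map
open Pool.Agent.H59.LV Pool.Agent.H59.ND Pool.Agent.H59.Zar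

variable {E F : Type*} [NormedAddCommGroup E] [InnerProductSpace ℝ E] [FiniteDimensional ℝ E]
  [NormedAddCommGroup F] [InnerProductSpace ℝ F] [FiniteDimensional ℝ F]
  {S : Set E} {A : E × E → E} {K K₂ : NNReal} {Φ : ℝ → E × E → E × E} {n m : ℕ}

/-- The function `ρ` near a crossing `w₀`. -/
structure Rho (A : E × E → E) (Φ : ℝ → E × E → E × E) (S : Set E) (m : ℕ) (ρ : E × E → ℝ)
    (O : Set (E × E)) : Prop where
  isOpen : IsOpen O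
  smooth : ContDiffOn ℝ ∞ ρ O
  good : ∀ w ∈ O, w ∈ UT S → w ∈ OO Φ S m
  eq : ∀ w ∈ O, w ∈ UT S → ∀ k ∈ YY Φ S w, k.1 - ⟪k.1, w.2⟫_ℝ • w.2 = ρ w • tanv A w k

theorem contDiff_tanv (hA : ContDiff ℝ ∞ A) :
    ContDiff ℝ ∞ fun q : (E × E) × (E × E) => tanv A q.1 q.2 := by
  have h1 : ContDiff ℝ ∞ (fderiv ℝ A) := hA.fderiv_right (by simp)
  have h2 : ContDiff ℝ ∞ fun q : (E × E) × (E × E) => fderiv ℝ A q.1 := h1.comp contDiff_fst
  have h3 : ContDiff ℝ ∞ fun q : (E × E) × (E × E) => ((0, q.2.1) : E × E) :=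
    contDiff_const.prodMk (contDiff_fst.comp contDiff_snd)
  exact (contDiff_snd.comp contDiff_snd).sub ((h2.clm_apply h3).const_smul (1 / 2 : ℝ))

theorem OO_nhds (h : GFlow F S A K K₂ Φ) (hdim : Module.finrank ℝ E = Module.finrank ℝ F + n)
    {w : E × E} (hw : w ∈ OO Φ S m) : ∀ᶠ w' in 𝓝[UT S] w, w' ∈ OO Φ S m := by
  filter_upwards [(retRel h hdim).good_open hw.1, hw.1.2] with w' h1 h2
  exact ⟨h1, h2.trans hw.2⟩

/-- At transverse points the vertical part is a multiple of the horizontal part. -/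
theorem tanv_of_tr (h : GFlow F S A K K₂ Φ) (hdim : Module.finrank ℝ E = Module.finrank ℝ F + n)
    (hn : 2 ≤ n) (hsec : Secure S) (hm : 2 ≤ m) {w : E × E} (hw : w ∈ OO Φ S m)
    (ht : Tr Φ S w) :
    ∃ c : ℝ, ∀ k ∈ YY Φ S w, tanv A w k = c • (k.1 - ⟪k.1, w.2⟫_ℝ • w.2) := by
  obtain ⟨c, hc⟩ := first_order h hdim hn hsec hm hw ht
  refine ⟨c, fun k hk => ?_⟩
  have hU : w ∈ UT S := hw.1.1
  have hX : (w.2, A w) ∈ YY Φ S w := X_mem_Y h hdim hU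
  have h1 : k - ⟪k.1, w.2⟫_ℝ • (w.2, A w) ∈ YY Φ S w :=
    (YY Φ S w).sub_mem hk ((YY Φ S w).smul_mem _ hX)
  have hvv : ⟪w.2, w.2⟫_ℝ = 1 := by
    rw [real_inner_self_eq_norm_sq, hU.2, one_pow]
  have h2 := hc _ h1 (by
    show ⟪k.1 - ⟪k.1, w.2⟫_ℝ • w.2, w.2⟫_ℝ = 0
    rw [inner_sub_left, real_inner_smul_left, hvv, mul_one, sub_self])
  have h3 : k - ⟪k.1, w.2⟫_ℝ • (w.2, A w) = k + (-⟪k.1, w.2⟫_ℝ) • (w.2, A w) := by
    rw [neg_smul, sub_eq_add_neg]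
  have h4 : tanv A w (k - ⟪k.1, w.2⟫_ℝ • (w.2, A w)) = tanv A w k := by
    rw [h3, tanv_add, tanv_smul, tanv_X h hU, smul_zero, add_zero]
  rw [h4] at h2
  exact h2

/-- **(5.1)** -/
theorem exists_rho (h : GFlow F S A K K₂ Φ) (hdim : Module.finrank ℝ E = Module.finrank ℝ F + n)
    (hn : 2 ≤ n) (hsec : Secure S) (hm : 2 ≤ m) {w₀ : E × E} (hw : w₀ ∈ OO Φ S m)
    (hc : ¬ Tr Φ S w₀) : ∃ (ρ : E × E → ℝ) (O : Set (E × E)), Rho A Φ S m ρ O ∧ w₀ ∈ O ∧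
      ρ w₀ = 0 := by
  have hU₀ : w₀ ∈ UT S := hw.1.1
  have hA : ContDiff ℝ ∞ A := h.field.smooth
  -- a vertical vector
  obtain ⟨b₀, hb₀, hb1, hb2⟩ : ∃ b₀ ∈ YY Φ S w₀, b₀.1 = 0 ∧ b₀.2 ≠ 0 := by
    unfold Tr at hc
    push Not at hc
    obtain ⟨b, hb, hb1, hb0⟩ := hc
    exact ⟨b, hb, hb1, fun h2 => hb0 (Prod.ext hb1 h2)⟩
  obtain ⟨Q, ⟨O₁, hO₁, hQ⟩, hQe⟩ := (retRel h hdim).exists_projY hw.1
  obtain ⟨O₂, hO₂sub, hO₂, hw₀2⟩ := mem_nhds_iff.1 hO₁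
  have hQ2 : ContDiffOn ℝ ∞ Q O₂ := hQ.mono hO₂sub
  obtain ⟨O₃, hO₃, hw₀3, hO₃s⟩ := mem_nhdsWithin.1 (hQe.and (OO_nhds h hdim hw))
  have hQv : ∀ k : E × E, ContDiffOn ℝ ∞ (fun w => Q w k) O₂ := fun k =>
    hQ2.clm_apply contDiffOn_const
  have hTv : ∀ k : E × E, ContDiffOn ℝ ∞ (fun w => tanv A w (Q w k)) O₂ := fun k =>
    (contDiff_tanv hA).comp_contDiffOn (contDiffOn_id.prodMk (hQv k))
  have hPv : ∀ k : E × E, ContDiffOn ℝ ∞
      (fun w : E × E => (Q w k).1 - ⟪(Q w k).1, w.2⟫_ℝ • w.2) O₂ := by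
    intro k
    have h1 : ContDiffOn ℝ ∞ (fun w => (Q w k).1) O₂ := contDiff_fst.comp_contDiffOn (hQv k)
    exact h1.sub ((h1.inner ℝ contDiff_snd.contDiffOn).smul contDiff_snd.contDiffOn)
  set V : E × E → E := fun w => tanv A w (Q w b₀) with hV
  set O₄ : Set (E × E) := O₂ ∩ V ⁻¹' {0}ᶜ with hO₄
  have hO₄o : IsOpen O₄ :=
    (hTv b₀).continuousOn.isOpen_inter_preimage hO₂ isOpen_compl_singleton
  have hQb : Q w₀ b₀ = b₀ := (hO₃s ⟨hw₀3, hU₀⟩).1.2 b₀ hb₀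
  have hV₀ : V w₀ = b₀.2 := by
    show tanv A w₀ (Q w₀ b₀) = b₀.2
    rw [hQb]
    have h1 : b₀ = ((0, b₀.2) : E × E) := Prod.ext hb1 rfl
    rw [h1, tanv_vert]
  set ρ : E × E → ℝ := fun w =>
    ⟪(Q w b₀).1 - ⟪(Q w b₀).1, w.2⟫_ℝ • w.2, V w⟫_ℝ / ⟪V w, V w⟫_ℝ with hρ
  have hρs : ContDiffOn ℝ ∞ ρ O₄ := by
    refine (((hPv b₀).inner ℝ (hTv b₀)).mono inter_subset_left).div
      (((hTv b₀).inner ℝ (hTv b₀)).mono inter_subset_left) ?_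
    rintro w ⟨-, hw2⟩
    exact fun h0 => hw2 (inner_self_eq_zero.1 h0)
  refine ⟨ρ, O₄ ∩ O₃, ⟨hO₄o.inter hO₃, hρs.mono inter_subset_left,
    fun w hwO hwU => (hO₃s ⟨hwO.2, hwU⟩).2, ?_⟩, ⟨⟨hw₀2, ?_⟩, hw₀3⟩, ?_⟩
  · -- the identity
    have htr : ∀ w ∈ O₄ ∩ O₃, w ∈ OO Φ S m → Tr Φ S w → ∀ k : E × E,
        (Q w k).1 - ⟪(Q w k).1, w.2⟫_ℝ • w.2 = ρ w • tanv A w (Q w k) := by
      intro w hwO hwm hwt k
      obtain ⟨c, hcc⟩ := tanv_of_tr h hdim hn hsec hm hwm hwt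
      have hin := (hO₃s ⟨hwO.2, hwm.1.1⟩).1.1
      have h1 : V w = c • ((Q w b₀).1 - ⟪(Q w b₀).1, w.2⟫_ℝ • w.2) := hcc _ (hin b₀)
      have h2 := hcc _ (hin k)
      have hV0 : V w ≠ 0 := hwO.1.2
      have hc0 : c ≠ 0 := by
        intro h0
        rw [h0, zero_smul] at h1
        exact hV0 h1
      have hVV : ⟪V w, V w⟫_ℝ ≠ 0 := fun h0 => hV0 (inner_self_eq_zero.1 h0)
      have h3 : (Q w b₀).1 - ⟪(Q w b₀).1, w.2⟫_ℝ • w.2 = c⁻¹ • V w := by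
        rw [h1, smul_smul, inv_mul_cancel₀ hc0, one_smul]
      have h4 : ρ w = c⁻¹ := by
        show ⟪(Q w b₀).1 - ⟪(Q w b₀).1, w.2⟫_ℝ • w.2, V w⟫_ℝ / ⟪V w, V w⟫_ℝ = c⁻¹
        rw [h3, real_inner_smul_left, mul_div_assoc, div_self hVV, mul_one]
      rw [h4, h2, smul_smul, inv_mul_cancel₀ hc0, one_smul]
    intro w hwO hwU k hk
    have hwm : w ∈ OO Φ S m := (hO₃s ⟨hwO.2, hwU⟩).2
    have hQk : Q w k = k := (hO₃s ⟨hwO.2, hwU⟩).1.2 k hk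
    set g : E × E → E := fun w' =>
      ((Q w' k).1 - ⟪(Q w' k).1, w'.2⟫_ℝ • w'.2) - ρ w' • tanv A w' (Q w' k) with hg
    have hgc : ContinuousOn g (O₄ ∩ O₃) :=
      (((hPv k).mono (inter_subset_left.trans inter_subset_left)).sub
        ((hρs.mono inter_subset_left).smul
          ((hTv k).mono (inter_subset_left.trans inter_subset_left)))).continuousOn
    have hgat : ContinuousAt g w := hgc.continuousAt ((hO₄o.inter hO₃).mem_nhds hwO)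
    have hg0 : g w = 0 := by
      by_contra hne
      have h1 : ∀ᶠ w' in 𝓝 w, g w' ≠ 0 := hgat.eventually_ne hne
      obtain ⟨w', hw'O, hw'm, hw't⟩ := tr_dense h hdim hn hsec hwm
        (inter_mem h1 ((hO₄o.inter hO₃).mem_nhds hwO))
      refine hw'O.1 ?_
      show ((Q w' k).1 - ⟪(Q w' k).1, w'.2⟫_ℝ • w'.2) - ρ w' • tanv A w' (Q w' k) = 0
      rw [htr w' hw'O.2 hw'm hw't k, sub_self]
    have h2 : ((Q w k).1 - ⟪(Q w k).1, w.2⟫_ℝ • w.2) - ρ w • tanv A w (Q w k) = 0 := hg0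
    rw [hQk] at h2
    exact sub_eq_zero.1 h2
  · show V w₀ ∈ ({0}ᶜ : Set E)
    rw [hV₀]
    exact hb2
  · show ⟪(Q w₀ b₀).1 - ⟪(Q w₀ b₀).1, w₀.2⟫_ℝ • w₀.2, V w₀⟫_ℝ / ⟪V w₀, V w₀⟫_ℝ = 0
    rw [hQb, hb1, inner_zero_left, zero_smul, sub_zero, inner_zero_left, zero_div]

theorem Rho.pre (h : GFlow F S A K K₂ Φ) (hm : 2 ≤ m) {ρ : E × E → ℝ} {O : Set (E × E)}
    (hr : Rho A Φ S m ρ O) : Pool.Agent.H36.FO.Pre S (RR Φ S) O ρ where
  isOpen := hr.isOpen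
  smooth := hr.smooth
  eq := by
    intro w hw hwO k hk e he
    have e1 : e ∈ ZT S w.1 := (mem_TS h.sub (fst_mem_TSet hw.1)).2 he
    have e2 : k ∈ ZT (UT S) w := by
      have e3 : ((0 : E × E), k) ∈ ZT (RR Φ S) (w, w) := hk
      have e4 := map_mem_ZT (R := RR Φ S) (R' := UT S)
        (Θ := (Prod.snd : (E × E) × (E × E) → E × E)) (p := (w, w)) (a := (0, k)) (U := univ)
        univ_mem contDiff_snd.contDiffOn (fun q hq _ => hq.2.1) e3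
      rwa [(hasFDerivAt_snd (𝕜 := ℝ) (E := E × E) (F := E × E) (p := (w, w))).fderiv] at e4
    rw [hr.eq w hwO hw k hk, inner_smul_left, inner_tanv h hw (fst_mem_TS hw e2) e1]
    rfl
  two := by
    intro w hw hwO
    have e1 : Module.finrank ℝ (YY Φ S w) = m := (hr.good w hwO hw).2
    have e2 : Module.finrank ℝ (Y (RR Φ S) w) = m := e1
    omega

/-- At a crossing the horizontal parts of `Y` are multiples of `w.2`. -/
theorem Rho.vert {ρ : E × E → ℝ} {O : Set (E × E)} (hr : Rho A Φ S m ρ O) {w : E × E} (hw : w ∈ O)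
    (hU : w ∈ UT S) (h0 : ρ w = 0) {k : E × E} (hk : k ∈ YY Φ S w) :
    k.1 = ⟪k.1, w.2⟫_ℝ • w.2 := by
  have h1 := hr.eq w hw hU k hk
  rw [h0, zero_smul, sub_eq_zero] at h1
  exact h1

/-- At a crossing there is a vertical vector in `Y`. -/
theorem Rho.exists_vert {ρ : E × E → ℝ} {O : Set (E × E)} (hr : Rho A Φ S m ρ O) (hm : 2 ≤ m)
    {w : E × E} (hw : w ∈ O) (hU : w ∈ UT S) (h0 : ρ w = 0) :
    ∃ b ∈ YY Φ S w, b.1 = 0 ∧ b.2 ≠ 0 := by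
  have hd : Module.finrank ℝ (YY Φ S w) = m := (hr.good w hw hU).2
  let T : YY Φ S w →ₗ[ℝ] ℝ :=
    (innerSL ℝ w.2).toLinearMap ∘ₗ (LinearMap.fst ℝ E E) ∘ₗ (YY Φ S w).subtype
  have hT : ∀ b : YY Φ S w, T b = ⟪w.2, (b : E × E).1⟫_ℝ := fun b => rfl
  have h1 := LinearMap.finrank_range_add_finrank_ker T
  have h2 : Module.finrank ℝ (LinearMap.range T) ≤ 1 := by
    have h3 := Submodule.finrank_le (LinearMap.range T)
    rwa [Module.finrank_self] at h3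
  have h3 : 0 < Module.finrank ℝ (LinearMap.ker T) := by omega
  have h4 : LinearMap.ker T ≠ ⊥ := by
    intro h4
    rw [h4, finrank_bot] at h3
    exact lt_irrefl 0 h3
  obtain ⟨b, hb, hb0⟩ := (Submodule.ne_bot_iff _).1 h4
  have hb' : ⟪w.2, (b : E × E).1⟫_ℝ = 0 := hb
  have hb1 : (b : E × E).1 = 0 := by
    rw [hr.vert hw hU h0 b.2, real_inner_comm, hb', zero_smul]
  exact ⟨b, b.2, hb1, fun h2 => hb0 (Subtype.ext (Prod.ext hb1 h2))⟩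

/-- At a crossing the derivative of `ρ` along the flow is `1`. -/
theorem Rho.deriv_X (h : GFlow F S A K K₂ Φ) (hdim : Module.finrank ℝ E = Module.finrank ℝ F + n)
    (hm : 2 ≤ m) {ρ : E × E → ℝ} {O : Set (E × E)} (hr : Rho A Φ S m ρ O) {w : E × E} (hw : w ∈ O)
    (hU : w ∈ UT S) (h0 : ρ w = 0) : fderiv ℝ ρ w (w.2, A w) = 1 := by
  have hR := retRel h hdim
  have hA : ContDiff ℝ ∞ A := h.field.smooth
  obtain ⟨b, hb, hb1, hb2⟩ := hr.exists_vert hm hw hU h0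
  have hbU : b ∈ ZT (UT S) w := hR.Y_le hU hb
  have hzero : Φ 0 w = w := by rw [h.flow.zero]
  have hJ0 : fderiv ℝ (Φ 0) w b = b := hR.fderiv_zero w b
  -- the path
  have hW : HasDerivAt (fun t => Φ t w) (w.2, A w) 0 := by
    have h1 := hasDerivAt_flow h w 0
    rwa [hzero] at h1
  have hJ : HasDerivAt (fun t => fderiv ℝ (Φ t) w b) (b.2, fderiv ℝ A w b) 0 := by
    have h1 := hasDerivAt_jac h w b 0
    rwa [hzero, hJ0] at h1
  have hJ1 : HasDerivAt (fun t => (fderiv ℝ (Φ t) w b).1) b.2 0 :=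
    (ContinuousLinearMap.fst ℝ E E).hasFDerivAt.comp_hasDerivAt 0 hJ
  have hW2 : HasDerivAt (fun t => (Φ t w).2) (A w) 0 :=
    (ContinuousLinearMap.snd ℝ E E).hasFDerivAt.comp_hasDerivAt 0 hW
  have hbw : ⟪w.2, b.2⟫_ℝ = 0 := inner_snd hbU
  -- left side
  have hL : HasDerivAt (fun t => (fderiv ℝ (Φ t) w b).1
      - ⟪(fderiv ℝ (Φ t) w b).1, (Φ t w).2⟫_ℝ • (Φ t w).2) b.2 0 := by
    have h1 := hJ1.sub ((hJ1.inner ℝ hW2).smul hW2)
    have h2 : b.2 - (⟪(fderiv ℝ (Φ 0) w b).1, (Φ 0 w).2⟫_ℝ • A w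
        + (⟪(fderiv ℝ (Φ 0) w b).1, A w⟫_ℝ + ⟪b.2, (Φ 0 w).2⟫_ℝ) • (Φ 0 w).2) = b.2 := by
      rw [hJ0, hzero, hb1, inner_zero_left, inner_zero_left, real_inner_comm, hbw]
      simp
    rw [h2] at h1
    exact h1
  -- right side
  have hρw : HasFDerivAt ρ (fderiv ℝ ρ w) (Φ 0 w) := by
    rw [hzero]
    exact hasFDerivAt_of_open hr.isOpen hr.smooth hw
  have hρ' : HasDerivAt (fun t => ρ (Φ t w)) (fderiv ℝ ρ w (w.2, A w)) 0 :=
    hρw.comp_hasDerivAt (0 : ℝ) hW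
  have hT : DifferentiableAt ℝ (fun t => tanv A (Φ t w) (fderiv ℝ (Φ t) w b)) (0 : ℝ) := by
    have h1 : DifferentiableAt ℝ (fun q : (E × E) × (E × E) => tanv A q.1 q.2)
        (Φ 0 w, fderiv ℝ (Φ 0) w b) := (contDiff_tanv hA).differentiable (by simp) _
    exact DifferentiableAt.comp (0 : ℝ) h1
      (hW.differentiableAt.prodMk hJ.differentiableAt)
  have hRd := hρ'.smul hT.hasDerivAt
  have hev : (fun t => (fderiv ℝ (Φ t) w b).1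
      - ⟪(fderiv ℝ (Φ t) w b).1, (Φ t w).2⟫_ℝ • (Φ t w).2) =ᶠ[𝓝 (0 : ℝ)]
      fun t => ρ (Φ t w) • tanv A (Φ t w) (fderiv ℝ (Φ t) w b) := by
    have h1 : ∀ᶠ t in 𝓝 (0 : ℝ), Φ t w ∈ O :=
      hW.continuousAt.preimage_mem_nhds (by rw [hzero]; exact hr.isOpen.mem_nhds hw)
    filter_upwards [h1] with t ht
    exact hr.eq _ ht (flow_mem_UT h hU t) _ ((hR.flow_Y hU t).2 hb)
  have h3 := hL.unique (hRd.congr_of_eventuallyEq hev)
  have h4 : ρ (Φ 0 w) = 0 := by rw [hzero, h0]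
  have h5 : tanv A (Φ 0 w) (fderiv ℝ (Φ 0) w b) = b.2 := by
    rw [hJ0, hzero]
    have h6 : b = ((0, b.2) : E × E) := Prod.ext hb1 rfl
    rw [h6, tanv_vert]
  rw [h4, zero_smul, zero_add, h5] at h3
  have h6 : (fderiv ℝ ρ w (w.2, A w) - 1) • b.2 = 0 := by
    rw [sub_smul, one_smul, ← h3, sub_self]
  rcases smul_eq_zero.1 h6 with h7 | h7
  · linarith
  · exact absurd h7 hb2

end Pool.Agent.H77.SN
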