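import Pool.Agent.H77.SN.Facts

/-!
# Short geodesics are nondegenerate
-/

set_option autoImplicit false

open scoped InnerProductSpace Topology ContDiff
open Set Filter

namespace Pool.Agent.H77.SN

open Pool.Agent.H91.GE hiding G1 G11 Nondeg Br exists_br cF smooth_cF Cfg mem_TSet_of_map
open Pool.Agent.H59.LV Pool.Agent.H59.ND Pool.Agent.H59.Zar

variable {E F : Type*} [NormedAddCommGroup E] [InnerProductSpace ℝ E] [FiniteDimensional ℝ E]
  [NormedAddCommGroup F] [InnerProductSpace ℝ F] [FiniteDimensional ℝ F]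
  {S : Set E} {A : E × E → E} {K K₂ : NNReal} {Φ : ℝ → E × E → E × E} {n : ℕ}

/-- Short geodesics are nondegenerate, locally uniformly. -/
theorem ndeg_short (h : GFlow F S A K K₂ Φ) (w₀ : E × E) :
    ∃ δ > 0, ∀ᶠ w in 𝓝 w₀, ∀ t ∈ Ioo (0 : ℝ) δ, ∀ ξ : E,
      (1 / 2 : ℝ) * t * ‖ξ‖ ≤ ‖(fderiv ℝ (Φ t) w (0, ξ)).1‖ := by
  have hG : Continuous (fun x : ℝ × (E × E) => fderiv ℝ (Φ x.1) x.2) := by
    have h1 : ContDiff ℝ 1 (Function.uncurry fun (x : ℝ × (E × E)) (y : E × E) => Φ x.1 y) := by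
      have h2 : ContDiff ℝ 1 (fun x : ℝ × (E × E) => Φ x.1 x.2) :=
        h.contDiff.of_le (by exact_mod_cast le_top)
      exact h2.comp ((contDiff_fst.comp contDiff_fst).prodMk contDiff_snd)
    exact (ContDiff.fderiv (n := 0) h1 contDiff_snd (by norm_num)).continuous
  -- the vertical part as a continuous family of operators of `E`
  set H : ℝ × (E × E) → E →L[ℝ] E := fun x =>
    (ContinuousLinearMap.snd ℝ E E).comp
      ((fderiv ℝ (Φ x.1) x.2).comp (ContinuousLinearMap.inr ℝ E E)) with hH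
  have hHc : Continuous H := continuous_const.clm_comp (hG.clm_comp continuous_const)
  have hHa : ∀ (x : ℝ × (E × E)) (ξ : E), H x ξ = (fderiv ℝ (Φ x.1) x.2 (0, ξ)).2 :=
    fun x ξ => rfl
  have h0 : H ((0 : ℝ), w₀) = ContinuousLinearMap.id ℝ E := by
    ext a
    rw [hHa]
    show (fderiv ℝ (Φ 0) w₀ ((0, a) : E × E)).2 = a
    rw [fderiv_flow_zero h]
  have hev : ∀ᶠ x in 𝓝 ((0 : ℝ), w₀), ‖H x - ContinuousLinearMap.id ℝ E‖ < 1 / 2 := by
    have h1 : Continuous (fun x : ℝ × (E × E) => ‖H x - ContinuousLinearMap.id ℝ E‖) :=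
      (hHc.sub continuous_const).norm
    exact (h1.continuousAt (x := ((0 : ℝ), w₀))).eventually_lt
      (continuousAt_const (y := (1 / 2 : ℝ))) (by rw [h0, sub_self, norm_zero]; norm_num)
  rw [nhds_prod_eq, Filter.eventually_prod_iff] at hev
  obtain ⟨pa, hpa, pb, hpb, hab⟩ := hev
  obtain ⟨δ, hδ, hball⟩ := Metric.eventually_nhds_iff.1 hpa
  refine ⟨δ, hδ, hpb.mono fun w hw t ht ξ => ?_⟩
  -- the estimate for the derivative
  have hd : ∀ s ∈ Icc (0 : ℝ) t, HasDerivWithinAt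
      (fun s => (fderiv ℝ (Φ s) w (0, ξ)).1 - s • ξ)
      ((fderiv ℝ (Φ s) w (0, ξ)).2 - (1 : ℝ) • ξ) (Icc 0 t) s := by
    intro s _
    have h1 := (ContinuousLinearMap.fst ℝ E E).hasFDerivAt.comp_hasDerivAt s
      (hasDerivAt_jac h w (0, ξ) s)
    exact (h1.sub ((hasDerivAt_id s).smul_const ξ)).hasDerivWithinAt
  have hb : ∀ s ∈ Ico (0 : ℝ) t, ‖(fderiv ℝ (Φ s) w (0, ξ)).2 - (1 : ℝ) • ξ‖ ≤ 1 / 2 * ‖ξ‖ := by
    intro s hs
    have h1 : dist s 0 < δ := by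
      rw [Real.dist_eq, sub_zero, abs_of_nonneg hs.1]
      exact hs.2.trans ht.2
    have h2 := hab (hball h1) hw
    have h3 := (H (s, w) - ContinuousLinearMap.id ℝ E).le_opNorm ξ
    have h6 : (H (s, w) - ContinuousLinearMap.id ℝ E) ξ =
        (fderiv ℝ (Φ s) w (0, ξ)).2 - (1 : ℝ) • ξ := by
      rw [ContinuousLinearMap.sub_apply, hHa, one_smul]
      rfl
    rw [h6] at h3
    exact h3.trans (mul_le_mul_of_nonneg_right h2.le (norm_nonneg _))
  have hmv := norm_image_sub_le_of_norm_deriv_le_segment' hd hb t (right_mem_Icc.2 ht.1.le)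
  have hz : fderiv ℝ (Φ 0) w ((0, ξ) : E × E) = (0, ξ) := fderiv_flow_zero h w _
  simp only [hz, zero_smul, sub_zero] at hmv
  have h7 : ‖t • ξ‖ = t * ‖ξ‖ := by rw [norm_smul, Real.norm_of_nonneg ht.1.le]
  have h8 : ‖t • ξ‖ ≤ ‖(fderiv ℝ (Φ t) w (0, ξ)).1‖ +
      ‖(fderiv ℝ (Φ t) w (0, ξ)).1 - t • ξ‖ := by
    have h9 := norm_sub_le ((fderiv ℝ (Φ t) w (0, ξ)).1) ((fderiv ℝ (Φ t) w (0, ξ)).1 - t • ξ)
    rwa [sub_sub_cancel] at h9
  rw [h7] at h8
  linarith [h8, hmv]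

end Pool.Agent.H77.SN
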