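import Pool.Agent.H77.SN.Facts
import Pool.Agent.H96.SF.TrLe
import Pool.Agent.H96.SF.Pack

/-!
# Section 2, output: exact joint class returns are dense
-/

set_option autoImplicit false
set_option linter.unusedSectionVars false
set_option linter.unusedVariables false

open scoped InnerProductSpace Topology ContDiff
open Set Filter

namespace Pool.Agent.H77.SN

open Pool.Agent.H91.GE hiding G1 G11 Nondeg Br exists_br cF smooth_cF Cfg mem_TSet_of_map
open Pool.Agent.H59.LV Pool.Agent.H59.ND Pool.Agent.H59.Zar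

variable {E F : Type*} [NormedAddCommGroup E] [InnerProductSpace ℝ E] [FiniteDimensional ℝ E]
  [NormedAddCommGroup F] [InnerProductSpace ℝ F] [FiniteDimensional ℝ F]
  {S : Set E} {A : E × E → E} {K K₂ : NNReal} {Φ : ℝ → E × E → E × E} {n m : ℕ}

/-- **Section 2.** Exact joint class returns are dense in the relation over good points. -/
theorem exists_JR (h : GFlow F S A K K₂ Φ) (hdim : Module.finrank ℝ E = Module.finrank ℝ F + n)
    (hn : 2 ≤ n) (hsec : Secure S) {p : (E × E) × (E × E)} (hp : p ∈ RR Φ S)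
    (hg : p.1 ∈ OO Φ S m) {O : Set ((E × E) × (E × E))} (hO : O ∈ 𝓝 p) :
    ∃ (w : E × E) (L : ℝ), (w, Φ L w) ∈ O ∧ w ∈ OO Φ S m ∧ JR Φ S w L := by
  exact exists_JR' h hdim hn hsec hp hg hO

/-- Transverse points are dense among the good points. -/
theorem tr_dense (h : GFlow F S A K K₂ Φ) (hdim : Module.finrank ℝ E = Module.finrank ℝ F + n)
    (hn : 2 ≤ n) (hsec : Secure S) {w : E × E} (hw : w ∈ OO Φ S m) {O : Set (E × E)}
    (hO : O ∈ 𝓝 w) : ∃ w' ∈ O, w' ∈ OO Φ S m ∧ Tr Φ S w' := by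
  have hU : w ∈ UT S := hw.1.1
  have h1 : O ×ˢ (univ : Set (E × E)) ∈ 𝓝 (w, w) := prod_mem_nhds hO univ_mem
  obtain ⟨w', L, h2, h3, ζ₁, ζ₂, ν₁, ν₂, hc, -, -⟩ :=
    exists_JR h hdim hn hsec ((retRel h hdim).diag w hU) hw h1
  exact ⟨w', h2.1, h3, hc.tr⟩

/-- The dimension of `Y` is at most `n`. -/
theorem OO_le (h : GFlow F S A K K₂ Φ) (hdim : Module.finrank ℝ E = Module.finrank ℝ F + n)
    (hn : 2 ≤ n) (hsec : Secure S) {w : E × E} (hw : w ∈ OO Φ S m) : m ≤ n := by
  obtain ⟨w', -, hw', ht⟩ := tr_dense h hdim hn hsec hw univ_mem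
  rw [← hw'.2]
  exact finrank_le_of_tr h hdim hw'.1.1 ht

end Pool.Agent.H77.SN
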