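import Pool.Agent.H77.SN.Sec5
import Pool.Agent.H79.OM.Near
import Pool.Agent.H79.OM.Loops
import Pool.Agent.H20.S6.Cov

/-!
# Section 6: the dimension of Y is n
-/

set_option autoImplicit false
set_option linter.unusedSectionVars false
set_option linter.unusedVariables false

open scoped InnerProductSpace Topology ContDiff
open Set Filter

namespace Pool.Agent.H77.SN

open Pool.Agent.H91.GE hiding G1 G11 Nondeg Br exists_br cF smooth_cF Cfg mem_TSet_of_map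
open Pool.Agent.H59.LV Pool.Agent.H59.ND Pool.Agent.H59.Zar

variable {E F : Type*} [NormedAddCommGroup E] [InnerProductSpace ℝ E] [FiniteDimensional ℝ E]
  [NormedAddCommGroup F] [InnerProductSpace ℝ F] [FiniteDimensional ℝ F]
  {S : Set E} {A : E × E → E} {K K₂ : NNReal} {Φ : ℝ → E × E → E × E} {n m : ℕ}

/-- The geometric facts of `H20/S6`. -/
theorem geo (h : GFlow F S A K K₂ Φ) (hdim : Module.finrank ℝ F ≤ Module.finrank ℝ E) :
    Pool.Agent.H20.S6.Geo (fun x => ZT S x) Φ (UT S) where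
  memU := fun x v hv v' hv' hn =>
    ⟨(mem_TS h.sub (fst_mem_TSet hv.1)).1 hv', hn⟩
  tan := fun w hw => ⟨snd_mem_TS h.sub hw, hw.2⟩
  deriv1 := fun w hw t =>
    (ContinuousLinearMap.fst ℝ E E).hasFDerivAt.comp_hasDerivAt t (hasDerivAt_flow h w t)
  deriv2 := fun w hw t => ⟨A (Φ t w),
    (ContinuousLinearMap.snd ℝ E E).hasFDerivAt.comp_hasDerivAt t (hasDerivAt_flow h w t),
    fun z hz => inner_A h (flow_mem_UT h hw t) hz⟩
  derivJ := fun w hw a t =>
    (ContinuousLinearMap.fst ℝ E E).hasFDerivAt.comp_hasDerivAt t (hasDerivAt_jac h w a t)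
  ztU := fun w hw a ha => ⟨fst_mem_TS hw ha, inner_snd ha⟩
  vert := fun w hw ξ hξ h0 => (ver_mem_iff h.sub hw).2 ⟨hξ, h0⟩
  om_inv := fun w hw a ha b hb t => om_flowU h hdim hw ha hb t

theorem OO_flow (h : GFlow F S A K K₂ Φ) (hdim : Module.finrank ℝ E = Module.finrank ℝ F + n)
    {w : E × E} (hw : w ∈ OO Φ S m) (t : ℝ) : Φ t w ∈ OO Φ S m :=
  ⟨(retRel h hdim).good_flow hw.1 t, ((retRel h hdim).finrank_flow_Y hw.1.1 t).trans hw.2⟩

theorem OO_open (h : GFlow F S A K K₂ Φ) (hdim : Module.finrank ℝ E = Module.finrank ℝ F + n)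
    {w : E × E} (hw : w ∈ OO Φ S m) : ∀ᶠ w' in 𝓝[UT S] w, w' ∈ OO Φ S m := by
  filter_upwards [(retRel h hdim).good_open hw.1, hw.1.2] with w' h1 h2
  exact ⟨h1, h2.trans hw.2⟩

theorem OO_pos (h : GFlow F S A K K₂ Φ) (hdim : Module.finrank ℝ E = Module.finrank ℝ F + n)
    {w : E × E} (hw : w ∈ OO Φ S m) : 1 ≤ m := by
  have hX := X_mem_Y h hdim hw.1.1
  have hne : (w.2, A w) ≠ 0 := by
    intro h0
    have h1 : w.2 = 0 := congrArg Prod.fst h0
    have h2 : ‖w.2‖ = 1 := hw.1.1.2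
    rw [h1, norm_zero] at h2
    exact zero_ne_one h2
  have h1 : 0 < Module.finrank ℝ (YY Φ S w) := by
    have : Nontrivial (YY Φ S w) :=
      ⟨⟨⟨(w.2, A w), hX⟩, 0, fun h0 => hne (congrArg Subtype.val h0)⟩⟩
    exact Module.finrank_pos
  have := hw.2
  omega

/-- For `m = 1` the distribution is spanned by the geodesic field. -/
theorem OO_one (h : GFlow F S A K K₂ Φ) (hdim : Module.finrank ℝ E = Module.finrank ℝ F + n)
    {w : E × E} (hw : w ∈ OO Φ S 1) {b : E × E} (hb : b ∈ YY Φ S w) :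
    ∃ c : ℝ, b = c • (w.2, A w) := by
  have hX := X_mem_Y h hdim hw.1.1
  have hne : (w.2, A w) ≠ 0 := by
    intro h0
    have h1 : w.2 = 0 := congrArg Prod.fst h0
    have h2 : ‖w.2‖ = 1 := hw.1.1.2
    rw [h1, norm_zero] at h2
    exact zero_ne_one h2
  obtain ⟨c, hc⟩ := (finrank_eq_one_iff_of_nonzero' (⟨(w.2, A w), hX⟩ : YY Φ S w)
    (fun h0 => hne (congrArg Subtype.val h0))).1 hw.2 ⟨b, hb⟩
  exact ⟨c, (congrArg Subtype.val hc).symm⟩

/-- All good points are transverse and `Y` is conformal there. -/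
theorem scal (h : GFlow F S A K K₂ Φ) (hdim : Module.finrank ℝ E = Module.finrank ℝ F + n)
    (hn : 2 ≤ n) (hsec : Secure S) {w : E × E} (hw : w ∈ OO Φ S m) :
    Pool.Agent.H20.S6.Scal (fun x => ZT S x) (RR Φ S) w := by
  have hpos := OO_pos h hdim hw
  have hU : w ∈ UT S := hw.1.1
  rcases Nat.lt_or_ge m 2 with h2 | h2
  · obtain rfl : m = 1 := by omega
    have hwn : ⟪w.2, w.2⟫_ℝ = 1 := by rw [real_inner_self_eq_norm_sq, hU.2]; norm_num
    refine ⟨fun a ha ha0 => ?_, 0, fun a ha ha0 z hz => ?_⟩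
    · obtain ⟨c, rfl⟩ := OO_one h hdim hw ha
      have h1 : c • w.2 = 0 := ha0
      have h3 : c = 0 := by
        have h4 := congrArg (fun z => ⟪w.2, z⟫_ℝ) h1
        simp only [inner_smul_right, hwn, inner_zero_right, mul_one] at h4
        exact h4
      rw [h3, zero_smul]
    · obtain ⟨c, rfl⟩ := OO_one h hdim hw ha
      have h1 : ⟪w.2, c • w.2⟫_ℝ = 0 := ha0
      rw [inner_smul_right, hwn, mul_one] at h1
      rw [h1, zero_smul, zero_mul]
      exact inner_zero_left z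
  · have ht := all_tr h hdim hn hsec h2 hw
    refine ⟨ht, ?_⟩
    obtain ⟨c, hc⟩ := first_order h hdim hn hsec h2 hw ht
    refine ⟨c, fun a ha ha0 z hz => ?_⟩
    have h1 := hc a ha (by rw [real_inner_comm]; exact ha0)
    have haU := (retRel h hdim).Y_le hU ha
    have h3 : a.1 ∈ ZT S w.1 := fst_mem_TS hU haU
    rw [← inner_tanv h hU h3 hz, h1, inner_smul_left]
    rfl

/-- **Section 6.** -/
theorem OO_empty (h : GFlow F S A K K₂ Φ) (hdim : Module.finrank ℝ E = Module.finrank ℝ F + n)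
    (hn : 2 ≤ n) (hsec : Secure S) (hm : m < n) : OO Φ S m = ∅ := by
  rw [Set.eq_empty_iff_forall_notMem]
  intro w₀ hw₀
  have hR := retRel h hdim
  have hG := geo h (show Module.finrank ℝ F ≤ Module.finrank ℝ E by omega)
  have hU : w₀ ∈ UT S := hw₀.1.1
  have hS : ∀ᶠ w in 𝓝[UT S] w₀, ∀ t,
      Pool.Agent.H20.S6.Scal (fun x => ZT S x) (RR Φ S) (Φ t w) := by
    filter_upwards [OO_open h hdim hw₀] with w hw t
    exact scal h hdim hn hsec (OO_flow h hdim hw t)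
  have htrv := (scal h hdim hn hsec hw₀).1
  obtain ⟨C₃, hC₃, N, hN, hcover⟩ := Pool.Agent.H20.S6.cover hG hR hw₀.1 hS
  obtain ⟨C₄, hC₄, hproj⟩ := Pool.Agent.H79.OM.near_proj hR hw₀.1
  set T := Pool.Agent.H79.OM.TB (RR Φ S) w₀ with hT
  let pr : E →L[ℝ] T := T.orthogonalProjectionOnto
  have hfin : Module.finrank ℝ T < n := by
    have h1 := Submodule.finrank_map_le (LinearMap.fst ℝ E E) (Y (RR Φ S) w₀)
    have h2 : Module.finrank ℝ (Y (RR Φ S) w₀) = m := hw₀.2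
    have h3 : Module.finrank ℝ T ≤ Module.finrank ℝ (Y (RR Φ S) w₀) := h1
    omega
  obtain ⟨C₁, hC₁, hrig⟩ := hR.rigid hU (pr.comp (ContinuousLinearMap.fst ℝ E E)) (fun b hb hb0 => by
    refine htrv b hb ?_
    have h1 : b.1 ∈ T := ⟨b, hb, rfl⟩
    have h2 : pr b.1 = ⟨b.1, h1⟩ :=
      Submodule.orthogonalProjectionOnto_mem_subspace_eq_self (⟨b.1, h1⟩ : T)
    have h3 : pr b.1 = 0 := hb0
    rw [h3] at h2
    exact (congrArg Subtype.val h2).symm)
  refine Pool.Agent.H79.OM.loops (C₁ := C₁) (C₂ := C₃ * C₄) h hR hsec hdim hU hfin pr hrig ?_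
  have hfst : Tendsto (fun q : (E × E) × (E × E) => q.1) (𝓝[RR Φ S] (w₀, w₀)) (𝓝[UT S] w₀) := by
    refine tendsto_nhdsWithin_iff.2 ⟨(continuous_fst.tendsto (w₀, w₀)).mono_left
      nhdsWithin_le_nhds, ?_⟩
    filter_upwards [self_mem_nhdsWithin] with q hq
    exact (hR.sub _ hq).1
  have hsnd : Tendsto (fun q : (E × E) × (E × E) => q.2) (𝓝[RR Φ S] (w₀, w₀)) (𝓝[UT S] w₀) := by
    refine tendsto_nhdsWithin_iff.2 ⟨(continuous_snd.tendsto (w₀, w₀)).mono_left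
      nhdsWithin_le_nhds, ?_⟩
    filter_upwards [self_mem_nhdsWithin] with q hq
    exact (hR.sub _ hq).2
  filter_upwards [hsnd.eventually hproj, hfst.eventually (mem_nhdsWithin_of_mem_nhds hN),
    hsnd.eventually (mem_nhdsWithin_of_mem_nhds hN), self_mem_nhdsWithin] with q h1 h2 h3 h4 t ht hq p
  obtain ⟨b, hb, hbp, hbn⟩ := h1 p
  have h5 : b.1 ∈ Pool.Agent.H20.S6.TY (RR Φ S) (Φ t q.1) := by
    rw [← hq]
    exact ⟨b, hb, rfl⟩
  obtain ⟨α, ξ, hξ, hξ0, he, hα, hξn⟩ := hcover q.1 (hR.sub _ h4).1 h2 t ht (by rw [← hq]; exact h3)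
    b.1 h5
  have h6 : ‖b.1‖ ≤ C₄ * ‖p‖ := (norm_fst_le b).trans hbn
  refine ⟨α, ξ, hξ, hξ0, ?_, ?_, ?_⟩
  · rw [hq, he]
    exact hbp
  · refine hα.trans ?_
    rw [mul_assoc]
    exact mul_le_mul_of_nonneg_left h6 hC₃.le
  · refine hξn.trans ?_
    rw [mul_assoc]
    exact mul_le_mul_of_nonneg_left h6 hC₃.le

/-- The good points with `dim Y = n` are dense. -/
theorem dense_OO (h : GFlow F S A K K₂ Φ) (hdim : Module.finrank ℝ E = Module.finrank ℝ F + n)
    (hn : 2 ≤ n) (hsec : Secure S) {w : E × E} (hw : w ∈ UT S) {O : Set (E × E)} (hO : O ∈ 𝓝 w) :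
    ∃ w' ∈ O, w' ∈ OO Φ S n := by
  obtain ⟨w', hw'O, hw'⟩ := (retRel h hdim).good_dense hw hO
  refine ⟨w', hw'O, hw', ?_⟩
  have h1 : w' ∈ OO Φ S (Module.finrank ℝ (YY Φ S w')) := ⟨hw', rfl⟩
  have h2 := OO_le h hdim hn hsec h1
  rcases Nat.lt_or_ge (Module.finrank ℝ (YY Φ S w')) n with h3 | h3
  · have h4 := OO_empty h hdim hn hsec h3
    rw [h4] at h1
    exact absurd h1 (Set.notMem_empty _)
  · omega

end Pool.Agent.H77.SN
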