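import Pool.Agent.H77.SN.Sec6
import Pool.Agent.H54.S7.Glue

/-!
# Section 7: flatness
-/

set_option autoImplicit false
set_option linter.unusedSectionVars false
set_option linter.unusedVariables false

open scoped InnerProductSpace Topology ContDiff
open Set Filter

namespace Pool.Agent.H77.SN

open Pool.Agent.H91.GE hiding G1 G11 Nondeg Br exists_br cF smooth_cF Cfg mem_TSet_of_map
open Pool.Agent.H59.LV Pool.Agent.H59.ND Pool.Agent.H59.Zar

variable {E F : Type*} [NormedAddCommGroup E] [InnerProductSpace ℝ E] [FiniteDimensional ℝ E]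
  [NormedAddCommGroup F] [InnerProductSpace ℝ F] [FiniteDimensional ℝ F]
  {S : Set E} {A : E × E → E} {K K₂ : NNReal} {Φ : ℝ → E × E → E × E} {n m : ℕ}

/-- **Section 7.** The Jacobi fields of a flat manifold. -/
theorem flat_jac (h : GFlow F S A K K₂ Φ) (hdim : Module.finrank ℝ E = Module.finrank ℝ F + n)
    (hn : 3 ≤ n) (hsec : Secure S) {w : E × E} (hw : w ∈ UT S) (t : ℝ) {ξ : E}
    (hξ : ξ ∈ ZT S w.1) (h0 : ⟪ξ, w.2⟫_ℝ = 0) :
    ‖(fderiv ℝ (Φ t) w (0, ξ)).1‖ = |t| * ‖ξ‖ :=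
  Pool.Agent.H54.S7.lin_of_secure h hdim hn hsec w hw ξ hξ (by rw [real_inner_comm]; exact h0) t

end Pool.Agent.H77.SN
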