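import Pool.Agent.H77.SN.Defs

/-!
# Geometric facts, all ambient (see also `H59/Zar/UT`, `Om`, `Inst`)
-/

set_option autoImplicit false

open scoped InnerProductSpace Topology ContDiff
open Set Filter

namespace Pool.Agent.H77.SN

open Pool.Agent.H91.GE hiding G1 G11 Nondeg Br exists_br cF smooth_cF Cfg mem_TSet_of_map
open Pool.Agent.H59.LV Pool.Agent.H59.ND Pool.Agent.H59.Zar

variable {E F : Type*} [NormedAddCommGroup E] [InnerProductSpace ℝ E] [FiniteDimensional ℝ E]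
  [NormedAddCommGroup F] [InnerProductSpace ℝ F] [FiniteDimensional ℝ F]
  {S : Set E} {A : E × E → E} {K K₂ : NNReal} {Φ : ℝ → E × E → E × E} {n : ℕ}

/-- The acceleration is normal. -/
theorem inner_A_ZT (h : GFlow F S A K K₂ Φ) {w : E × E} (hw : w ∈ UT S) {e : E}
    (he : e ∈ ZT S w.1) : ⟪A w, e⟫_ℝ = 0 := Pool.Agent.H59.Zar.inner_A h hw he

/-- The derivative of the acceleration in vertical directions is normal. -/
theorem inner_DA (h : GFlow F S A K K₂ Φ) {w : E × E} (hw : w ∈ UT S) {a e : E}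
    (ha : a ∈ ZT S w.1) (he : e ∈ ZT S w.1) : ⟪fderiv ℝ A w (0, a), e⟫_ℝ = 0 :=
  Pool.Agent.H59.Zar.inner_dA h hw ha he

theorem inner_tanv (h : GFlow F S A K K₂ Φ) {w : E × E} (hw : w ∈ UT S) {k : E × E} {e : E}
    (hk : k.1 ∈ ZT S w.1) (he : e ∈ ZT S w.1) : ⟪tanv A w k, e⟫_ℝ = ⟪k.2, e⟫_ℝ := by
  unfold tanv
  rw [inner_sub_left, inner_smul_left, inner_DA h hw hk he]
  simp

theorem snd_mem_ZT (h : GFlow F S A K K₂ Φ) {w : E × E} (hw : w ∈ UT S) : w.2 ∈ ZT S w.1 := by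
  rw [mem_TS h.sub (fst_mem_TSet hw.1)]
  exact hw.1

/-- The tangent space of the unit tangent bundle. -/
theorem mem_ZT_UT (h : GFlow F S A K K₂ Φ) {w : E × E} (hw : w ∈ UT S) (k : E × E) :
    k ∈ ZT (UT S) w ↔ k.1 ∈ ZT S w.1 ∧ tanv A w k ∈ ZT S w.1 ∧ ⟪k.2, w.2⟫_ℝ = 0 := by
  rw [Pool.Agent.H59.Zar.mem_ZTU_iff h hw, real_inner_comm]
  rfl

theorem tanv_vert (w : E × E) (ξ : E) : tanv A w ((0, ξ) : E × E) = ξ := by
  unfold tanv
  have h1 : (((0 : E), ((0, ξ) : E × E).1) : E × E) = 0 := rfl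
  rw [h1, map_zero, smul_zero, sub_zero]

/-- The vertical part is linear. -/
theorem tanv_add (w k l : E × E) : tanv A w (k + l) = tanv A w k + tanv A w l := by
  have h1 : (((0 : E), (k + l).1) : E × E) = (0, k.1) + (0, l.1) := by simp
  unfold tanv
  rw [h1, map_add, smul_add, Prod.snd_add]
  abel

theorem tanv_smul (w : E × E) (c : ℝ) (k : E × E) : tanv A w (c • k) = c • tanv A w k := by
  have h1 : (((0 : E), (c • k).1) : E × E) = c • (0, k.1) := by simp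
  unfold tanv
  rw [h1, map_smul, smul_sub, Prod.smul_snd, smul_comm]

/-- The geodesic field has no vertical part. -/
theorem tanv_X (h : GFlow F S A K K₂ Φ) {w : E × E} (hw : w ∈ UT S) :
    tanv A w (w.2, A w) = 0 := by
  obtain ⟨O, hO, f, hf⟩ := h.sub w.1 (fst_mem_TSet hw.1)
  have h1 := dA_eq h hf hw hO (snd_mem_TS h.sub hw)
  have h2 : A w = -(Rinv (fderiv ℝ f w.1) (fderiv ℝ (fderiv ℝ f) w.1 w.2 w.2)) :=
    h.field.eq w hw.1 (by rw [hw.2]; norm_num) O f hf hO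
  show A w - (1 / 2 : ℝ) • fderiv ℝ A w (0, w.2) = 0
  rw [h1, h2, smul_neg, smul_smul]
  norm_num

theorem vert_mem (h : GFlow F S A K K₂ Φ) {w : E × E} (hw : w ∈ UT S) {ξ : E}
    (hξ : ξ ∈ ZT S w.1) (h0 : ⟪ξ, w.2⟫_ℝ = 0) : ((0, ξ) : E × E) ∈ ZT (UT S) w := by
  rw [mem_ZT_UT h hw]
  exact ⟨(ZT S w.1).zero_mem, by rw [tanv_vert]; exact hξ, h0⟩

/-- A vertical vector tangent to the unit tangent bundle. -/
theorem vert_iff (h : GFlow F S A K K₂ Φ) {w : E × E} (hw : w ∈ UT S) {ξ : E} :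
    ((0, ξ) : E × E) ∈ ZT (UT S) w ↔ ξ ∈ ZT S w.1 ∧ ⟪ξ, w.2⟫_ℝ = 0 := by
  refine ⟨fun hk => ?_, fun hk => vert_mem h hw hk.1 hk.2⟩
  rw [mem_ZT_UT h hw] at hk
  rw [tanv_vert] at hk
  exact hk.2

end Pool.Agent.H77.SN
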