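import Mathlib

/-!
# Closed families of subspaces of constant dimension
-/

set_option autoImplicit false

open scoped Topology
open Set Filter

namespace Pool.Agent.H77.SN

variable {G : Type*} [NormedAddCommGroup G] [NormedSpace ℝ G] [FiniteDimensional ℝ G]

/-- no unit vectors of the complement, up to a bounded multiple of `a`, in a subsequence -/
theorem Lsc_aux {V : ℕ → Submodule ℝ G} {V₀ C : Submodule ℝ G}
    (hcl : ∀ (φ : ℕ → ℕ) (v : ℕ → G) (a : G), StrictMono φ → (∀ k, v k ∈ V (φ k)) →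
      Tendsto v atTop (𝓝 a) → a ∈ V₀) (hC : IsCompl V₀ C) {a : G} (ha : a ∈ V₀)
    {φ : ℕ → ℕ} (hφ : StrictMono φ) {c : ℕ → G} {s : ℕ → ℝ} {M : ℝ} (hc : ∀ k, c k ∈ C)
    (hc1 : ∀ k, ‖c k‖ = 1) (hs : ∀ k, s k ∈ Icc (0 : ℝ) M) (hV : ∀ k, s k • a + c k ∈ V (φ k)) :
    False := by
  have : ProperSpace G := FiniteDimensional.proper_real G
  have hK : IsCompact (Icc (0 : ℝ) M ×ˢ Metric.sphere (0 : G) 1) :=
    isCompact_Icc.prod (isCompact_sphere _ _)
  obtain ⟨⟨s', c'⟩, hmem, ψ, hψ, hlim⟩ := hK.tendsto_subseq (x := fun k => (s k, c k))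
    (fun k => ⟨hs k, mem_sphere_zero_iff_norm.2 (hc1 k)⟩)
  have h1 : Tendsto (fun k => s (ψ k)) atTop (𝓝 s') := (continuous_fst.tendsto _).comp hlim
  have h2 : Tendsto (fun k => c (ψ k)) atTop (𝓝 c') := (continuous_snd.tendsto _).comp hlim
  have h3 : c' ∈ C := by
    have hcC : IsClosed (C : Set G) := C.closed_of_finiteDimensional
    exact hcC.mem_of_tendsto h2 (Eventually.of_forall fun k => hc (ψ k))
  have h4 : s' • a + c' ∈ V₀ :=
    hcl (φ ∘ ψ) (fun k => s (ψ k) • a + c (ψ k)) _ (hφ.comp hψ) (fun k => hV (ψ k))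
      ((h1.smul_const a).add h2)
  have h5 : c' ∈ V₀ := by
    have := V₀.sub_mem h4 (V₀.smul_mem s' ha)
    rwa [add_sub_cancel_left] at this
  have h6 : c' = 0 := by
    have := hC.disjoint.le_bot (Submodule.mem_inf.2 ⟨h5, h3⟩)
    exact (Submodule.mem_bot ℝ).1 this
  have h7 : ‖c'‖ = 1 := mem_sphere_zero_iff_norm.1 hmem.2
  rw [h6, norm_zero] at h7
  exact zero_ne_one h7

/-- In a closed family of subspaces of (eventually) constant dimension every vector of the limit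
space is a limit. -/
theorem lsc_of_closed {V : ℕ → Submodule ℝ G} {V₀ : Submodule ℝ G}
    (hcl : ∀ (φ : ℕ → ℕ) (v : ℕ → G) (a : G), StrictMono φ → (∀ k, v k ∈ V (φ k)) →
      Tendsto v atTop (𝓝 a) → a ∈ V₀)
    (hd : ∀ᶠ k in atTop, Module.finrank ℝ V₀ ≤ Module.finrank ℝ (V k)) {a : G} (ha : a ∈ V₀) :
    ∃ v : ℕ → G, (∀ k, v k ∈ V k) ∧ Tendsto v atTop (𝓝 a) := by
  classical
  obtain ⟨C, hC⟩ := V₀.exists_isCompl
  have h1 : ∀ᶠ k in atTop, V k ⊓ C = ⊥ := by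
    by_contra hcon
    rw [not_eventually] at hcon
    obtain ⟨φ, hφ, hφ'⟩ := extraction_of_frequently_atTop hcon
    have h2 : ∀ k, ∃ x ∈ V (φ k) ⊓ C, x ≠ 0 := fun k => (Submodule.ne_bot_iff _).1 (hφ' k)
    choose x hx hx0 using h2
    refine Lsc_aux hcl hC ha hφ (c := fun k => ‖x k‖⁻¹ • x k) (s := fun _ => 0) (M := 1)
      (fun k => C.smul_mem _ (Submodule.mem_inf.1 (hx k)).2) ?_ (fun k => ⟨le_rfl, zero_le_one⟩) ?_
    · intro k
      rw [norm_smul, norm_inv, norm_norm]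
      exact inv_mul_cancel₀ (norm_ne_zero_iff.2 (hx0 k))
    · intro k
      show (0 : ℝ) • a + ‖x k‖⁻¹ • x k ∈ V (φ k)
      rw [zero_smul, zero_add]
      exact (V (φ k)).smul_mem _ (Submodule.mem_inf.1 (hx k)).1
  have h2 : ∀ᶠ k in atTop, ∃ v ∈ V k, v - a ∈ C := by
    filter_upwards [h1, hd] with k hk hdk
    have e1 := Submodule.finrank_sup_add_finrank_inf_eq (V k) C
    rw [hk, finrank_bot, add_zero] at e1
    have e2 := Submodule.finrank_add_eq_of_isCompl hC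
    have e3 : V k ⊔ C = ⊤ := Submodule.eq_top_of_finrank_eq
      (le_antisymm (Submodule.finrank_le _) (by rw [e1, ← e2]; omega))
    have e4 : a ∈ V k ⊔ C := by rw [e3]; exact Submodule.mem_top
    obtain ⟨v, hv, c, hc, hvc⟩ := Submodule.mem_sup.1 e4
    refine ⟨v, hv, ?_⟩
    rw [← hvc, sub_add_cancel_left]
    exact C.neg_mem hc
  let v : ℕ → G := fun k => if h : ∃ v ∈ V k, v - a ∈ C then h.choose else 0
  have hv1 : ∀ k, v k ∈ V k := by
    intro k
    by_cases h : ∃ v ∈ V k, v - a ∈ C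
    · simp only [v, dif_pos h]
      exact h.choose_spec.1
    · simp only [v, dif_neg h]
      exact (V k).zero_mem
  have hv2 : ∀ᶠ k in atTop, v k - a ∈ C := by
    filter_upwards [h2] with k h
    simp only [v, dif_pos h]
    exact h.choose_spec.2
  refine ⟨v, hv1, ?_⟩
  by_contra hcon
  rw [Metric.tendsto_atTop'] at hcon
  push Not at hcon
  obtain ⟨ε, hε, hcon⟩ := hcon
  have hfr : ∃ᶠ k in atTop, ε ≤ ‖v k - a‖ := by
    rw [frequently_atTop']
    intro N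
    obtain ⟨n, hn, hn'⟩ := hcon N
    exact ⟨n, hn, by rwa [← dist_eq_norm]⟩
  obtain ⟨φ, hφ, hφ'⟩ := extraction_of_frequently_atTop (hfr.and_eventually hv2)
  have hpos : ∀ k, 0 < ‖v (φ k) - a‖ := fun k => hε.trans_le (hφ' k).1
  refine Lsc_aux hcl hC ha hφ (c := fun k => ‖v (φ k) - a‖⁻¹ • (v (φ k) - a))
    (s := fun k => ‖v (φ k) - a‖⁻¹) (M := ε⁻¹) (fun k => C.smul_mem _ (hφ' k).2) ?_ ?_ ?_
  · intro k
    rw [norm_smul, norm_inv, norm_norm]
    exact inv_mul_cancel₀ (hpos k).ne'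
  · intro k
    exact ⟨inv_nonneg.2 (hpos k).le, inv_anti₀ hε (hφ' k).1⟩
  · intro k
    show ‖v (φ k) - a‖⁻¹ • a + ‖v (φ k) - a‖⁻¹ • (v (φ k) - a) ∈ V (φ k)
    rw [← smul_add, add_sub_cancel]
    exact (V (φ k)).smul_mem _ (hv1 _)

end Pool.Agent.H77.SN
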