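import Pool.Agent.H77.SN.Facts

/-!
# From Jacobi fields to flat parametrizations
-/

set_option autoImplicit false
set_option linter.unusedSectionVars false
set_option linter.unusedVariables false

open scoped InnerProductSpace Topology ContDiff
open Set Filter

namespace Pool.Agent.H77.SN

open Pool.Agent.H91.GE hiding G1 G11 Nondeg Br exists_br cF smooth_cF Cfg mem_TSet_of_map
open Pool.Agent.H59.LV Pool.Agent.H59.ND Pool.Agent.H59.Zar

variable {E F : Type*} [NormedAddCommGroup E] [InnerProductSpace ℝ E] [FiniteDimensional ℝ E]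
  [NormedAddCommGroup F] [InnerProductSpace ℝ F] [FiniteDimensional ℝ F]
  {S : Set E} {A : E × E → E} {K K₂ : NNReal} {Φ : ℝ → E × E → E × E} {n m : ℕ}

/-- Flat Jacobi fields give flat parametrizations. -/
theorem flat_param (h : GFlow F S A K K₂ Φ) (hdim : Module.finrank ℝ E = Module.finrank ℝ F + n)
    {N : Type*} [NormedAddCommGroup N] [InnerProductSpace ℝ N] [FiniteDimensional ℝ N]
    (hN : Module.finrank ℝ N = n)
    (hj : ∀ w ∈ UT S, ∀ t : ℝ, ∀ ξ ∈ ZT S w.1, ⟪ξ, w.2⟫_ℝ = 0 →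
      ‖(fderiv ℝ (Φ t) w (0, ξ)).1‖ = |t| * ‖ξ‖) {p : E} (hp : p ∈ S) :
    ∃ V : Set N, IsOpen V ∧ ∃ φ : N → E, ContDiffOn ℝ ∞ φ V ∧ φ '' V ⊆ S ∧
      (∃ W : Set E, IsOpen W ∧ p ∈ W ∧ S ∩ W ⊆ φ '' V) ∧
      ∀ u ∈ V, ∀ a b : N, ⟪fderiv ℝ φ u a, fderiv ℝ φ u b⟫_ℝ = ⟪a, b⟫_ℝ := by
  sorry

end Pool.Agent.H77.SN
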