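import Pool.Agent.H77.SN.Sec7
import Pool.Agent.H77.SN.Sec7P

/-!
# Secure implies flat in every dimension at least three
-/

set_option autoImplicit false
set_option linter.unusedSectionVars false
set_option linter.unusedVariables false

open scoped InnerProductSpace Topology ContDiff
open Set Filter

namespace Pool.Agent.H77.SN

open Pool.Agent.H91.GE hiding G1 G11 Nondeg Br exists_br cF smooth_cF Cfg mem_TSet_of_map
open Pool.Agent.H59.LV Pool.Agent.H59.ND Pool.Agent.H59.Zar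

variable {E F : Type*} [NormedAddCommGroup E] [InnerProductSpace ℝ E] [FiniteDimensional ℝ E]
  [NormedAddCommGroup F] [InnerProductSpace ℝ F] [FiniteDimensional ℝ F]
  {S : Set E} {A : E × E → E} {K K₂ : NNReal} {Φ : ℝ → E × E → E × E} {n m : ℕ}

/-- **A secure compact submanifold of dimension at least three is flat.** -/
theorem flat_of_secure (hS : IsCompact S) (hsub : IsSub F S)
    (hdim : Module.finrank ℝ E = Module.finrank ℝ F + n) (hn : 3 ≤ n) (hsec : Secure S)
    {N : Type*} [NormedAddCommGroup N] [InnerProductSpace ℝ N] [FiniteDimensional ℝ N]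
    (hN : Module.finrank ℝ N = n) {p : E} (hp : p ∈ S) :
    ∃ V : Set N, IsOpen V ∧ ∃ φ : N → E, ContDiffOn ℝ ∞ φ V ∧ φ '' V ⊆ S ∧
      (∃ W : Set E, IsOpen W ∧ p ∈ W ∧ S ∩ W ⊆ φ '' V) ∧
      ∀ u ∈ V, ∀ a b : N, ⟪fderiv ℝ φ u a, fderiv ℝ φ u b⟫_ℝ = ⟪a, b⟫_ℝ := by
  obtain ⟨A, K, K₂, Φ, h⟩ := exists_GFlow hS hsub
  exact flat_param h hdim hN (fun w hw t ξ hξ h0 => flat_jac h hdim hn hsec hw t hξ h0) hp

end Pool.Agent.H77.SN
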