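import Pool.Agent.H77.SN.Defs

/-!
# A local smooth retraction onto a submanifold
-/

set_option autoImplicit false

open scoped InnerProductSpace Topology ContDiff
open Set Filter

namespace Pool.Agent.H77.SN

open Pool.Agent.H91.GE hiding G1 G11 Nondeg Br exists_br cF smooth_cF Cfg mem_TSet_of_map
open Pool.Agent.H59.LV Pool.Agent.H59.ND Pool.Agent.H59.Zar

variable {E F : Type*} [NormedAddCommGroup E] [InnerProductSpace ℝ E] [FiniteDimensional ℝ E]
  [NormedAddCommGroup F] [InnerProductSpace ℝ F] [FiniteDimensional ℝ F]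
  {S : Set E}

section patch

variable {N : Type*} [NormedAddCommGroup N] [InnerProductSpace ℝ N] [FiniteDimensional ℝ N]
  {Ω : Set N} {ψ : N → E} {P : E →L[ℝ] N} {W : Set E}

/-- The equation of the orthogonal projection onto `S` in a patch. -/
noncomputable def projEq (ψ : N → E) (z : E × N) : N :=
  adjL (fderiv ℝ ψ z.2) (z.1 - ψ z.2)

theorem projEq_zero {z : E × N} (h0 : ψ z.2 = z.1) : projEq ψ z = 0 := by
  show adjL (fderiv ℝ ψ z.2) (z.1 - ψ z.2) = 0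
  rw [h0, sub_self, map_zero]

theorem projEq_smooth (h : Patch S Ω ψ P W) :
    ContDiffOn ℝ ∞ (projEq ψ) {z : E × N | z.2 ∈ Ω} := by
  have h1 : ContDiffOn ℝ ∞ (fun z : E × N => adjL (fderiv ℝ ψ z.2)) {z : E × N | z.2 ∈ Ω} :=
    adjL.contDiff.comp_contDiffOn
      (h.fderiv_smooth.comp contDiff_snd.contDiffOn fun z hz => hz)
  have h2 : ContDiffOn ℝ ∞ (fun z : E × N => z.1 - ψ z.2) {z : E × N | z.2 ∈ Ω} :=
    contDiff_fst.contDiffOn.sub (h.smooth.comp contDiff_snd.contDiffOn fun z hz => hz)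
  exact h1.clm_apply h2

theorem fderiv_projEq (h : Patch S Ω ψ P W) {z : E × N} (hz : z.2 ∈ Ω) (h0 : ψ z.2 = z.1)
    (a : E × N) : fderiv ℝ (projEq ψ) z a
      = adjL (fderiv ℝ ψ z.2) (a.1 - fderiv ℝ ψ z.2 a.2) := by
  have d1 : HasFDerivAt (fun z : E × N => fderiv ℝ ψ z.2)
      ((fderiv ℝ (fderiv ℝ ψ) z.2).comp (ContinuousLinearMap.snd ℝ E N)) z :=
    HasFDerivAt.comp z (g := fderiv ℝ ψ) (h.hasFDerivAt_fderiv hz) hasFDerivAt_snd
  have d2 : HasFDerivAt (fun z : E × N => adjL (fderiv ℝ ψ z.2))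
      (adjL.comp ((fderiv ℝ (fderiv ℝ ψ) z.2).comp (ContinuousLinearMap.snd ℝ E N))) z :=
    HasFDerivAt.comp z (g := fun L : N →L[ℝ] E => adjL L)
      ((adjL : (N →L[ℝ] E) →L[ℝ] (E →L[ℝ] N)).hasFDerivAt (x := fderiv ℝ ψ z.2)) d1
  have d3 : HasFDerivAt (fun z : E × N => ψ z.2)
      ((fderiv ℝ ψ z.2).comp (ContinuousLinearMap.snd ℝ E N)) z :=
    HasFDerivAt.comp z (g := ψ) (h.hasFDerivAt hz) hasFDerivAt_snd
  have d4 : HasFDerivAt (fun z : E × N => z.1 - ψ z.2)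
      (ContinuousLinearMap.fst ℝ E N - (fderiv ℝ ψ z.2).comp (ContinuousLinearMap.snd ℝ E N)) z :=
    hasFDerivAt_fst.sub d3
  have d5 := d2.clm_apply d4
  have d6 : HasFDerivAt (projEq ψ) _ z := d5
  rw [d6.fderiv]
  simp only [ContinuousLinearMap.comp_apply, sub_apply, ContinuousLinearMap.coe_fst',
    ContinuousLinearMap.coe_snd', h0, sub_self, map_zero, add_zero]

theorem adjL_comp_self {L : N →L[ℝ] E} {b : N} (h : adjL L (L b) = 0) : L b = 0 := by
  have h1 : ⟪L b, L b⟫_ℝ = 0 := by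
    rw [← ContinuousLinearMap.adjoint_inner_left, ← adjL_apply, h, inner_zero_left]
  exact inner_self_eq_zero.1 h1

theorem projEq_bij (h : Patch S Ω ψ P W) {z : E × N} (hz : z.2 ∈ Ω) (h0 : ψ z.2 = z.1) :
    Function.Bijective fun b : N => fderiv ℝ (projEq ψ) z (0, b) := by
  let T : N →ₗ[ℝ] N := (fderiv ℝ (projEq ψ) z).toLinearMap ∘ₗ LinearMap.inr ℝ E N
  have hT : ∀ b, T b = fderiv ℝ (projEq ψ) z (0, b) := fun b => rfl
  have hinj : Function.Injective T := by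
    refine (injective_iff_map_eq_zero _).2 fun b hb => ?_
    rw [hT, fderiv_projEq h hz h0] at hb
    have h1 : adjL (fderiv ℝ ψ z.2) (fderiv ℝ ψ z.2 b) = 0 := by
      rw [zero_sub, map_neg, neg_eq_zero] at hb
      exact hb
    have h2 := adjL_comp_self h1
    rw [← h.κ_fderiv hz b, h2, map_zero]
  exact ⟨hinj, LinearMap.injective_iff_surjective.1 hinj⟩

theorem exists_retr_patch (hsub : IsSub F S) (h : Patch S Ω ψ P W) {x : E} (hx : x ∈ S)
    (hxW : x ∈ W) :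
    ∃ (O : Set E) (π : E → E), IsOpen O ∧ x ∈ O ∧ ContDiffOn ℝ ∞ π O ∧ (∀ y ∈ O, π y ∈ S) ∧
      ∀ y ∈ O, y ∈ S → π y = y ∧ (∀ e ∈ ZT S y, fderiv ℝ π y e = e) ∧
        ∀ ν : E, (∀ e ∈ ZT S y, ⟪ν, e⟫_ℝ = 0) → fderiv ℝ π y ν = 0 := by
  obtain ⟨hPx, hψx⟩ := h.right x hx hxW
  have hD : IsOpen {z : E × N | z.2 ∈ Ω} := h.isOpen.preimage continuous_snd
  have hx0 : projEq ψ (x, P x) = 0 := projEq_zero hψx
  obtain ⟨O, V, β, hO, hxO, hV, hPV, hOV, hβ, -, hsol⟩ :=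
    exists_implicit hD (projEq_smooth h) (a₀ := x) (b₀ := P x) hPx (projEq_bij h hPx hψx)
  have hβΩ : ∀ y ∈ O, β y ∈ Ω := fun y hy =>
    hOV (show (y, β y) ∈ O ×ˢ V from ⟨hy, (hsol y hy).1⟩)
  refine ⟨O ∩ (W ∩ P ⁻¹' V), fun y => ψ (β y), ?_, ⟨hxO, hxW, hPV⟩, ?_, ?_, ?_⟩
  · exact hO.inter (h.V_open.inter (hV.preimage P.continuous))
  · exact h.smooth.comp (hβ.mono inter_subset_left) fun y hy => hβΩ y hy.1
  · exact fun y hy => h.mem _ (hβΩ y hy.1)
  · rintro y ⟨hyO, hyW, hyV⟩ hyS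
    obtain ⟨hPy, hψy⟩ := h.right y hyS hyW
    have hβy : P y = β y :=
      (hsol y hyO).2.2 (P y) hyV (by rw [hx0]; exact projEq_zero hψy)
    have hβd : HasFDerivAt β (fderiv ℝ β y) y := hasFDerivAt_of_open hO hβ hyO
    have hβψ : ψ (β y) = y := by rw [← hβy]; exact hψy
    have hπd : HasFDerivAt (fun y => ψ (β y)) (fderiv ℝ ψ (β y) ∘L fderiv ℝ β y) y :=
      (h.hasFDerivAt (hβΩ y hyO)).comp y hβd
    have hπ : ∀ a, fderiv ℝ (fun y => ψ (β y)) y a = fderiv ℝ ψ (β y) (fderiv ℝ β y a) := by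
      intro a
      rw [hπd.fderiv]
      rfl
    have hkey : ∀ a, adjL (fderiv ℝ ψ (β y)) (a - fderiv ℝ ψ (β y) (fderiv ℝ β y a)) = 0 := by
      intro a
      have e1 : HasFDerivAt (projEq ψ) (fderiv ℝ (projEq ψ) (y, β y)) (y, β y) :=
        hasFDerivAt_of_open hD (projEq_smooth h) (hβΩ y hyO)
      have e2 : HasFDerivAt (fun y => projEq ψ (y, β y))
          ((fderiv ℝ (projEq ψ) (y, β y)).comp
            ((ContinuousLinearMap.id ℝ E).prod (fderiv ℝ β y))) y :=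
        HasFDerivAt.comp y (g := projEq ψ) e1 ((hasFDerivAt_id y).prodMk hβd)
      have e3 : (fun y => projEq ψ (y, β y)) =ᶠ[𝓝 y] fun _ => 0 := by
        filter_upwards [hO.mem_nhds hyO] with q hq
        rw [(hsol q hq).2.1, hx0]
      have e4 := e2.unique ((hasFDerivAt_const (0 : N) y).congr_of_eventuallyEq e3)
      have e5 : fderiv ℝ (projEq ψ) (y, β y) (a, fderiv ℝ β y a) = 0 :=
        congrArg (fun L : E →L[ℝ] N => L a) e4
      rwa [fderiv_projEq h (hβΩ y hyO) hβψ] at e5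
    refine ⟨hβψ, fun e he => ?_, fun ν hν => ?_⟩
    · rw [hπ]
      obtain ⟨-, -, h3⟩ := h.of_TSet hyW ((mem_TS hsub hyS).1 he)
      rw [hβy] at h3
      have h4 := hkey e
      have h5 : e - fderiv ℝ ψ (β y) (fderiv ℝ β y e)
          = fderiv ℝ ψ (β y) (P e - fderiv ℝ β y e) := by
        rw [map_sub, h3]
      rw [h5] at h4
      have h6 := adjL_comp_self h4
      rw [← h5] at h6
      exact (sub_eq_zero.1 h6).symm
    · rw [hπ]
      have h4 : adjL (fderiv ℝ ψ (β y)) ν = 0 := by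
        refine ext_inner_right ℝ fun b => ?_
        rw [adjL_apply, ContinuousLinearMap.adjoint_inner_left, inner_zero_left]
        refine hν _ ((mem_TS hsub hyS).2 ?_)
        have h5 := h.mem_TSet hsub (hβΩ y hyO) b
        rwa [hβψ] at h5
      have h5 := hkey ν
      rw [map_sub, h4, zero_sub, neg_eq_zero] at h5
      exact adjL_comp_self h5

end patch

/-- A local smooth retraction onto `S` whose derivative at the points of `S` is the orthogonal
projection onto the tangent space. -/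
theorem exists_retr (hsub : IsSub F S) {x : E} (hx : x ∈ S) :
    ∃ (O : Set E) (π : E → E), IsOpen O ∧ x ∈ O ∧ ContDiffOn ℝ ∞ π O ∧ (∀ y ∈ O, π y ∈ S) ∧
      ∀ y ∈ O, y ∈ S → π y = y ∧ (∀ e ∈ ZT S y, fderiv ℝ π y e = e) ∧
        ∀ ν : E, (∀ e ∈ ZT S y, ⟪ν, e⟫_ℝ = 0) → fderiv ℝ π y ν = 0 := by
  obtain ⟨U, hU, f, hf⟩ := hsub x hx
  have h1 := finrank_ker (hf.surj x hU)
  have h2 : Module.finrank ℝ E = Module.finrank ℝ F + Module.finrank ℝ
      (EuclideanSpace ℝ (Fin (Module.finrank ℝ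
        (LinearMap.ker (fderiv ℝ f x).toLinearMap)))) := by
    rw [finrank_euclideanSpace_fin, h1]
  obtain ⟨Ω, ψ, P, W, hP, hxW⟩ := exists_patch h2 hf hU
  exact exists_retr_patch hsub hP hx hxW

end Pool.Agent.H77.SN
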