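import Pool.Agent.H77.SN.Facts
import Pool.Agent.H52.S3.ClsA

/-!
# Section 3: Lemma A
-/

set_option autoImplicit false
set_option linter.unusedSectionVars false
set_option linter.unusedVariables false

open scoped InnerProductSpace Topology ContDiff
open Set Filter

namespace Pool.Agent.H77.SN

open Pool.Agent.H91.GE hiding G1 G11 Nondeg Br exists_br cF smooth_cF Cfg mem_TSet_of_map
open Pool.Agent.H59.LV Pool.Agent.H59.ND Pool.Agent.H59.Zar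

variable {E F : Type*} [NormedAddCommGroup E] [InnerProductSpace ℝ E] [FiniteDimensional ℝ E]
  [NormedAddCommGroup F] [InnerProductSpace ℝ F] [FiniteDimensional ℝ F]
  {S : Set E} {A : E × E → E} {K K₂ : NNReal} {Φ : ℝ → E × E → E × E} {n m : ℕ}

theorem mem_of_inner_perp {V : Submodule ℝ E} {e : E}
    (h : ∀ z : E, (∀ a ∈ V, ⟪z, a⟫_ℝ = 0) → ⟪z, e⟫_ℝ = 0) : e ∈ V := by
  rw [← Submodule.orthogonal_orthogonal V, Submodule.mem_orthogonal]
  intro z hz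
  exact h z fun a ha => Submodule.inner_left_of_mem_orthogonal ha hz

/-- Test pairs for a good function are tangent. -/
theorem TPr.mem {ζ : E × E → E} {ν : ℝ} {x y e'' e' : E} (hx : x ∈ S) (hy : y ∈ S)
    (hg : Gd S ζ x y) (hν : ν ≠ 0) (ht : TPr ζ ν x y e'' e') : e'' ∈ ZT S x ∧ e' ∈ ZT S y := by
  obtain ⟨W, -, hW, -, hk⟩ := hg
  obtain ⟨-, hn, -, -⟩ := hk (x, y) hW hx hy
  constructor
  · refine mem_of_inner_perp fun z hz => ?_
    have h1 := ht z 0 (hn (z, 0) hz (by simp))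
    rw [inner_zero_left, zero_add] at h1
    exact (mul_eq_zero.1 h1).resolve_left hν
  · refine mem_of_inner_perp fun z hz => ?_
    have h1 := ht 0 z (hn (0, z) (by simp) hz)
    rwa [inner_zero_left, mul_zero, add_zero] at h1

/-- **Lemma A.** -/
theorem lemmaA (h : GFlow F S A K K₂ Φ) (hdim : Module.finrank ℝ E = Module.finrank ℝ F + n)
    {ζ : E × E → E} {ν : (E × E) × (E × E) → ℝ} {w : E × E} {L : ℝ} (hc : Cls Φ S ζ ν w L) :
    ∃ φ : ℝ, ∀ ξ ∈ TZ Φ S (w, Φ L w), ∀ a b : E × E, (a, b) ∈ ZT (RR Φ S) (w, Φ L w) →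
      a.1 = ξ.1 → b.1 = -(ν (w, Φ L w) • ξ.2) → ∀ e'' e' : E, ⟪e', (Φ L w).2⟫_ℝ = 0 →
        TPr ζ (ν (w, Φ L w)) w.1 (Φ L w).1 e'' e' →
        ⟪a.2, e''⟫_ℝ - ⟪b.2, e'⟫_ℝ = φ * ⟪ξ.2, e'⟫_ℝ := by
  obtain ⟨c, hcc⟩ := Pool.Agent.H52.S3.lemmaA_cls h hdim hc
  refine ⟨c, fun ξ hξ a b hab ha hb e'' e' hve ht => ?_⟩
  have hv : (Φ L w).1 ∈ S := fst_mem_TSet (flow_mem_UT h hc.mem L).1
  obtain ⟨he'', he'⟩ := ht.mem (fst_mem_TSet hc.mem.1) hv hc.gd hc.ne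
  refine hcc e'' he'' e' he' (by rw [real_inner_comm]; exact hve) ht ξ hξ a.2 b.2 0 ?_
  rw [zero_smul, add_zero, ← ha, ← hb]
  exact hab

end Pool.Agent.H77.SN
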