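import Pool.Agent.H35.SN.Graph

/-!
# Section 3: the identity (*) on the graphs
-/

set_option autoImplicit false
set_option linter.unusedSectionVars false
set_option linter.unusedVariables false

open scoped InnerProductSpace Topology ContDiff
open Set Filter

namespace Pool.Agent.H77.SN

open Pool.Agent.H91.GE hiding G1 G11 Nondeg Br exists_br cF smooth_cF Cfg mem_TSet_of_map
open Pool.Agent.H59.LV Pool.Agent.H59.ND Pool.Agent.H59.Zar

variable {E F : Type*} [NormedAddCommGroup E] [InnerProductSpace ℝ E] [FiniteDimensional ℝ E]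
  [NormedAddCommGroup F] [InnerProductSpace ℝ F] [FiniteDimensional ℝ F]
  {S : Set E} {A : E × E → E} {K K₂ : NNReal} {Φ : ℝ → E × E → E × E} {n m : ℕ}

/-- **(*)** at `(w, Φ t w)`, by density. -/
theorem star_graph (h : GFlow F S A K K₂ Φ) (hdim : Module.finrank ℝ E = Module.finrank ℝ F + n)
    (hn : 2 ≤ n) (hsec : Secure S) (hm : 2 ≤ m) {w : E × E} (hw : w ∈ OO Φ S m) {t : ℝ}
    (ht : 0 < t) (hnd : NDeg Φ S w t) (h1 : Tr Φ S w) (h2 : Tr Φ S (Φ t w))
    (hE : ∀ ξ ∈ TZ Φ S (w, Φ t w), (∀ e ∈ TT Φ S w, ⟪ξ.1, e⟫_ℝ = 0) → ξ.1 = 0) :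
    Star Φ S (w, Φ t w) :=
  Pool.Agent.H35.SN.star_graph' h hdim hn hsec hw hnd h1 h2 hE

end Pool.Agent.H77.SN
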