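import Pool.Agent.H77.SN.Defs

/-!
# The hypothesis of the second kind of test pairs for short times
-/

set_option autoImplicit false
set_option linter.unusedSectionVars false

open scoped InnerProductSpace Topology ContDiff
open Set Filter

namespace Pool.Agent.H77.SN

open Pool.Agent.H91.GE hiding G1 G11 Nondeg Br exists_br cF smooth_cF Cfg mem_TSet_of_map
open Pool.Agent.H59.LV Pool.Agent.H59.ND Pool.Agent.H59.Zar

variable {E F : Type*} [NormedAddCommGroup E] [InnerProductSpace ℝ E] [FiniteDimensional ℝ E]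
  [NormedAddCommGroup F] [InnerProductSpace ℝ F] [FiniteDimensional ℝ F]
  {S : Set E} {A : E × E → E} {K K₂ : NNReal} {Φ : ℝ → E × E → E × E} {c : ℕ}

/-- The derivative of the flow is close to the identity for short times. -/
theorem flow_near (h : GFlow F S A K K₂ Φ) (w : E × E) {ε : ℝ} (hε : 0 < ε) :
    ∃ δ > 0, ∀ t, |t| < δ → ∀ a : E × E, ‖fderiv ℝ (Φ t) w a - a‖ ≤ ε * ‖a‖ := by
  have h1 : ContDiff ℝ ∞ (fun x : ℝ × (E × E) => Φ x.1 x.2) := h.contDiff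
  have h2 : ContDiff ℝ ∞ (fun t : ℝ => fderiv ℝ (Φ t) w) :=
    ContDiff.fderiv (n := ∞) (m := ∞) (f := fun (t : ℝ) (w : E × E) => Φ t w) (g := fun _ => w)
      h1 contDiff_const (by norm_num)
  have h0 : fderiv ℝ (Φ 0) w = ContinuousLinearMap.id ℝ (E × E) := by
    have e : Φ 0 = id := funext fun w => h.flow.zero w
    rw [e, fderiv_id]
  have h4 : ∀ᶠ t in 𝓝 (0 : ℝ), ‖fderiv ℝ (Φ t) w - ContinuousLinearMap.id ℝ (E × E)‖ < ε := by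
    have h5 := h2.continuous.tendsto 0
    rw [tendsto_iff_norm_sub_tendsto_zero, h0] at h5
    exact h5.eventually_lt_const hε
  obtain ⟨δ, hδ, h5⟩ := Metric.eventually_nhds_iff.1 h4
  refine ⟨δ, hδ, fun t ht a => ?_⟩
  have h6 := h5 (y := t) (by rw [Real.dist_eq, sub_zero]; exact ht)
  have h7 := (fderiv ℝ (Φ t) w - ContinuousLinearMap.id ℝ (E × E)).le_opNorm a
  calc ‖fderiv ℝ (Φ t) w a - a‖ = ‖(fderiv ℝ (Φ t) w - ContinuousLinearMap.id ℝ (E × E)) a‖ := rfl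
    _ ≤ _ := h7
    _ ≤ ε * ‖a‖ := mul_le_mul_of_nonneg_right h6.le (norm_nonneg _)

/-- First order expansion of the base part. -/
theorem flow_fst (h : GFlow F S A K K₂ Φ) (w : E × E) {ε δ : ℝ}
    (hδ : ∀ t, |t| < δ → ∀ a : E × E, ‖fderiv ℝ (Φ t) w a - a‖ ≤ ε * ‖a‖) {t : ℝ} (ht : 0 ≤ t)
    (htδ : t < δ) (a : E × E) :
    ‖(fderiv ℝ (Φ t) w a).1 - a.1 - t • a.2‖ ≤ ε * ‖a‖ * t := by
  set f : ℝ → E := fun s => (fderiv ℝ (Φ s) w a).1 - a.1 - s • a.2 with hf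
  have hd : ∀ s, HasDerivAt f ((fderiv ℝ (Φ s) w a).2 - a.2) s := by
    intro s
    have h1 := (ContinuousLinearMap.fst ℝ E E).hasFDerivAt.comp_hasDerivAt s (hasDerivAt_jac h w a s)
    have h2 : HasDerivAt (fun s : ℝ => s • a.2) ((1 : ℝ) • a.2) s :=
      (hasDerivAt_id s).smul_const a.2
    rw [one_smul] at h2
    exact (h1.sub_const a.1).sub h2
  have h0 : f 0 = 0 := by
    have e : fderiv ℝ (Φ 0) w a = a := by
      have e : Φ 0 = id := funext fun w => h.flow.zero w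
      rw [e, fderiv_id]; rfl
    simp only [hf, e, zero_smul, sub_self]
  have hb : ∀ s ∈ Icc (0 : ℝ) t, ‖(fderiv ℝ (Φ s) w a).2 - a.2‖ ≤ ε * ‖a‖ := by
    intro s hs
    have h1 := hδ s (by rw [abs_of_nonneg hs.1]; exact lt_of_le_of_lt hs.2 htδ) a
    refine le_trans ?_ h1
    exact norm_snd_le (fderiv ℝ (Φ s) w a - a)
  have h3 := (convex_Icc (0 : ℝ) t).norm_image_sub_le_of_norm_hasDerivWithin_le
    (f := f) (f' := fun s => (fderiv ℝ (Φ s) w a).2 - a.2) (C := ε * ‖a‖) (x := 0) (y := t)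
    (fun s _ => (hd s).hasDerivWithinAt) hb (left_mem_Icc.2 ht) (right_mem_Icc.2 ht)
  rw [h0, sub_zero, sub_zero, Real.norm_eq_abs, abs_of_nonneg ht] at h3
  exact h3

/-- For short times the first components of vertical pairs are not orthogonal to `T(w)`. -/
theorem hE_short (h : GFlow F S A K K₂ Φ) (hR : RetRel Φ (UT S) c (RR Φ S)) {w : E × E}
    (hw : w ∈ UT S) (ht : Tr Φ S w) : ∀ᶠ t in 𝓝[>] (0 : ℝ), ∀ ξ ∈ TZ Φ S (w, Φ t w),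
      (∀ e ∈ TT Φ S w, ⟪ξ.1, e⟫_ℝ = 0) → ξ.1 = 0 := by
  -- uniform transversality
  obtain ⟨C, hC, hCb⟩ : ∃ C : ℝ, 0 < C ∧ ∀ k ∈ YY Φ S w, ‖k‖ ≤ C * ‖k.1‖ := by
    let f : YY Φ S w →ₗ[ℝ] E := (LinearMap.fst ℝ E E).comp (YY Φ S w).subtype
    have hker : LinearMap.ker f = ⊥ := by
      refine (LinearMap.ker_eq_bot').2 fun k hk => ?_
      exact Subtype.ext (ht k.1 k.2 hk)
    obtain ⟨C, hC, hf⟩ := f.exists_antilipschitzWith hker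
    refine ⟨C, hC, fun k hk => ?_⟩
    have h1 := hf.le_mul_dist ⟨k, hk⟩ 0
    rw [map_zero, dist_zero_right, dist_zero_right] at h1
    exact h1
  obtain ⟨δ, hδ, hδb⟩ := flow_near h w (ε := 1 / 4) (by norm_num)
  have hev : ∀ᶠ t in 𝓝[>] (0 : ℝ), 0 < t ∧ t < δ ∧ t * (4 * C + 1) < 1 / 4 := by
    have h1 : ∀ᶠ t in 𝓝[>] (0 : ℝ), t < δ :=
      eventually_nhdsWithin_of_eventually_nhds (eventually_lt_nhds hδ)
    have h2 : ∀ᶠ t in 𝓝[>] (0 : ℝ), t < 1 / 4 / (4 * C + 1) :=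
      eventually_nhdsWithin_of_eventually_nhds (eventually_lt_nhds (by positivity))
    filter_upwards [self_mem_nhdsWithin, h1, h2] with t h3 h4 h5
    exact ⟨h3, h4, (lt_div_iff₀ (by positivity)).1 h5⟩
  filter_upwards [hev] with t ⟨ht0, htδ, htC⟩
  intro ξ hξ hperp
  by_contra hne
  have hpos : 0 < ‖ξ.1‖ := norm_pos_iff.2 hne
  -- the vector of `Y`
  set b : E × E := fderiv ℝ (Φ (-t)) (Φ t w) ((0 : E), ξ.2) with hb
  have hbe : fderiv ℝ (Φ t) w b = ((0 : E), ξ.2) := hR.fderiv_inv' t w _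
  have hz : ((((0 : E), ξ.1) : E × E), ((0 : E), ξ.2)) ∈ ZT (RR Φ S) (w, Φ t w) := hξ
  rw [← hbe, hR.mem_graph hw] at hz
  set k : E × E := (((0 : E), ξ.1) : E × E) - b with hk
  have hkY : k ∈ YY Φ S w := hz.2
  have hgk : fderiv ℝ (Φ t) w k = fderiv ℝ (Φ t) w ((0 : E), ξ.1) - ((0 : E), ξ.2) := by
    rw [hk, map_sub, hbe]
  have hg1 : (fderiv ℝ (Φ t) w k).1 = (fderiv ℝ (Φ t) w ((0 : E), ξ.1)).1 := by
    rw [hgk, Prod.fst_sub, sub_zero]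
  have e1 := flow_fst h w hδb ht0.le htδ k
  have e2 := flow_fst h w hδb ht0.le htδ ((0 : E), ξ.1)
  have hnξ : ‖(((0 : E), ξ.1) : E × E)‖ = ‖ξ.1‖ := by
    rw [Prod.norm_mk, norm_zero, max_eq_right (norm_nonneg _)]
  rw [hnξ] at e2
  have e2' : ‖(fderiv ℝ (Φ t) w ((0 : E), ξ.1)).1 - t • ξ.1‖ ≤ 1 / 4 * ‖ξ.1‖ * t := by
    have h1 : (fderiv ℝ (Φ t) w ((0 : E), ξ.1)).1 - (((0 : E), ξ.1) : E × E).1
        - t • (((0 : E), ξ.1) : E × E).2 = (fderiv ℝ (Φ t) w ((0 : E), ξ.1)).1 - t • ξ.1 := by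
      show _ - (0 : E) - t • ξ.1 = _
      rw [sub_zero]
    rw [← h1]; exact e2
  rw [hg1] at e1
  set g := (fderiv ℝ (Φ t) w ((0 : E), ξ.1)).1 with hg
  have hk2 : ‖k.2‖ ≤ ‖k‖ := norm_snd_le k
  have hkC := hCb k hkY
  -- the norm of `g`
  have hgn : ‖g‖ ≤ 5 / 4 * ‖ξ.1‖ * t := by
    have h1 : ‖g‖ ≤ ‖g - t • ξ.1‖ + ‖t • ξ.1‖ := by
      calc ‖g‖ = ‖(g - t • ξ.1) + t • ξ.1‖ := by rw [sub_add_cancel]
        _ ≤ _ := norm_add_le _ _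
    rw [norm_smul, Real.norm_eq_abs, abs_of_pos ht0] at h1
    linarith
  -- the difference `g - k.1`
  have hgk1 : ‖g - k.1‖ ≤ 5 / 4 * ‖k‖ * t := by
    have h1 : ‖g - k.1‖ ≤ ‖g - k.1 - t • k.2‖ + ‖t • k.2‖ := by
      calc ‖g - k.1‖ = ‖(g - k.1 - t • k.2) + t • k.2‖ := by rw [sub_add_cancel]
        _ ≤ _ := norm_add_le _ _
    rw [norm_smul, Real.norm_eq_abs, abs_of_pos ht0] at h1
    have h2 : t * ‖k.2‖ ≤ t * ‖k‖ := mul_le_mul_of_nonneg_left hk2 ht0.le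
    linarith
  have hk1 : ‖k.1‖ ≤ 2 * ‖ξ.1‖ * t := by
    have h1 : ‖k.1‖ ≤ ‖g‖ + ‖g - k.1‖ := by
      calc ‖k.1‖ = ‖g - (g - k.1)‖ := by rw [sub_sub_cancel]
        _ ≤ _ := norm_sub_le _ _
    have h2 : 5 / 4 * ‖k‖ * t ≤ 5 / 4 * (C * ‖k.1‖) * t := by
      have := mul_le_mul_of_nonneg_right hkC ht0.le
      nlinarith
    have h3 : t * C * ‖k.1‖ ≤ 1 / 16 * ‖k.1‖ := by
      refine mul_le_mul_of_nonneg_right ?_ (norm_nonneg _)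
      nlinarith
    nlinarith [norm_nonneg k.1, mul_nonneg (norm_nonneg ξ.1) ht0.le]
  have hkn : ‖k‖ ≤ C * (2 * ‖ξ.1‖ * t) := hkC.trans (mul_le_mul_of_nonneg_left hk1 hC.le)
  -- the scalar product with `ξ.1`
  have hin : ⟪g, ξ.1⟫_ℝ = ⟪g - k.1, ξ.1⟫_ℝ := by
    have h1 : ⟪ξ.1, k.1⟫_ℝ = 0 := hperp k.1 ⟨k, hkY, rfl⟩
    rw [inner_sub_left, real_inner_comm ξ.1 k.1, h1, sub_zero]
  have hlow : 3 / 4 * ‖ξ.1‖ ^ 2 * t ≤ ⟪g, ξ.1⟫_ℝ := by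
    have h1 : ⟪g, ξ.1⟫_ℝ = ⟪g - t • ξ.1, ξ.1⟫_ℝ + t * ‖ξ.1‖ ^ 2 := by
      rw [inner_sub_left, real_inner_smul_left, real_inner_self_eq_norm_sq]; ring
    have h2 : |⟪g - t • ξ.1, ξ.1⟫_ℝ| ≤ ‖g - t • ξ.1‖ * ‖ξ.1‖ := abs_real_inner_le_norm _ _
    have h3 : ‖g - t • ξ.1‖ * ‖ξ.1‖ ≤ 1 / 4 * ‖ξ.1‖ * t * ‖ξ.1‖ :=
      mul_le_mul_of_nonneg_right e2' (norm_nonneg _)
    have h4 := (abs_le.1 (h2.trans h3)).1
    rw [h1]
    nlinarith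
  have hup : ⟪g - k.1, ξ.1⟫_ℝ ≤ 5 / 4 * (C * (2 * ‖ξ.1‖ * t)) * t * ‖ξ.1‖ := by
    have h2 : ⟪g - k.1, ξ.1⟫_ℝ ≤ ‖g - k.1‖ * ‖ξ.1‖ := real_inner_le_norm _ _
    have h3 : ‖g - k.1‖ * ‖ξ.1‖ ≤ 5 / 4 * ‖k‖ * t * ‖ξ.1‖ :=
      mul_le_mul_of_nonneg_right hgk1 (norm_nonneg _)
    have h4 : 5 / 4 * ‖k‖ * t * ‖ξ.1‖ ≤ 5 / 4 * (C * (2 * ‖ξ.1‖ * t)) * t * ‖ξ.1‖ := by
      have h5 : ‖k‖ * (t * ‖ξ.1‖) ≤ C * (2 * ‖ξ.1‖ * t) * (t * ‖ξ.1‖) :=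
        mul_le_mul_of_nonneg_right hkn (by positivity)
      nlinarith
    linarith
  rw [hin] at hlow
  have h9 : 3 / 4 * ‖ξ.1‖ ^ 2 * t ≤ (5 / 2 * C * t) * (‖ξ.1‖ ^ 2 * t) := by
    calc 3 / 4 * ‖ξ.1‖ ^ 2 * t ≤ 5 / 4 * (C * (2 * ‖ξ.1‖ * t)) * t * ‖ξ.1‖ := hlow.trans hup
      _ = _ := by ring
  have h10 : 0 < ‖ξ.1‖ ^ 2 * t := by positivity
  have h11 : 5 / 2 * C * t < 3 / 4 := by nlinarith
  nlinarith

end Pool.Agent.H77.SN
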