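import Pool.Agent.H77.SN.Sec3D
import Pool.Agent.H77.SN.Short
import Pool.Agent.H77.SN.ShortE
import Pool.Agent.H21.IS.Star

/-!
# The identity (*) for short times
-/

set_option autoImplicit false
set_option linter.unusedSectionVars false

open scoped InnerProductSpace Topology ContDiff
open Set Filter

namespace Pool.Agent.H77.SN

open Pool.Agent.H91.GE hiding G1 G11 Nondeg Br exists_br cF smooth_cF Cfg mem_TSet_of_map
open Pool.Agent.H59.LV Pool.Agent.H59.ND Pool.Agent.H59.Zar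

variable {E F : Type*} [NormedAddCommGroup E] [InnerProductSpace ℝ E] [FiniteDimensional ℝ E]
  [NormedAddCommGroup F] [InnerProductSpace ℝ F] [FiniteDimensional ℝ F]
  {S : Set E} {A : E × E → E} {K K₂ : NNReal} {Φ : ℝ → E × E → E × E} {c n m : ℕ}

/-- Transversality persists for short times. -/
theorem tr_short (h : GFlow F S A K K₂ Φ) (hR : RetRel Φ (UT S) c (RR Φ S)) {w : E × E}
    (hw : w ∈ UT S) (ht : Tr Φ S w) : ∀ᶠ t in 𝓝[>] (0 : ℝ), Tr Φ S (Φ t w) := by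
  obtain ⟨C, hC, hCb⟩ : ∃ C : ℝ, 0 < C ∧ ∀ k ∈ YY Φ S w, ‖k‖ ≤ C * ‖k.1‖ := by
    let f : YY Φ S w →ₗ[ℝ] E := (LinearMap.fst ℝ E E).comp (YY Φ S w).subtype
    have hker : LinearMap.ker f = ⊥ := by
      refine (LinearMap.ker_eq_bot').2 fun k hk => ?_
      exact Subtype.ext (ht k.1 k.2 hk)
    obtain ⟨C, hC, hf⟩ := f.exists_antilipschitzWith hker
    refine ⟨C, hC, fun k hk => ?_⟩
    have h1 := hf.le_mul_dist ⟨k, hk⟩ 0
    rw [map_zero, dist_zero_right, dist_zero_right] at h1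
    exact h1
  obtain ⟨δ, hδ, hδb⟩ := flow_near h w (ε := 1 / (2 * C)) (by positivity)
  have h1 : ∀ᶠ t in 𝓝[>] (0 : ℝ), t < δ :=
    eventually_nhdsWithin_of_eventually_nhds (eventually_lt_nhds hδ)
  filter_upwards [self_mem_nhdsWithin, h1] with t ht0 htδ
  have ht0' : (0 : ℝ) < t := ht0
  intro a ha ha1
  set k : E × E := fderiv ℝ (Φ (-t)) (Φ t w) a with hk
  have hka : fderiv ℝ (Φ t) w k = a := hR.fderiv_inv' t w a
  have hkY : k ∈ YY Φ S w := by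
    have h2 : fderiv ℝ (Φ t) w k ∈ Y (RR Φ S) (Φ t w) := by rw [hka]; exact ha
    exact (hR.flow_Y hw t).1 h2
  have h3 := hδb t (by rw [abs_of_pos ht0']; exact htδ) k
  have h4 : ‖k.1‖ ≤ 1 / (2 * C) * ‖k‖ := by
    have h5 : ‖(fderiv ℝ (Φ t) w k - k).1‖ ≤ ‖fderiv ℝ (Φ t) w k - k‖ := norm_fst_le _
    rw [hka, Prod.fst_sub, ha1, zero_sub, norm_neg] at h5
    rw [hka] at h3
    exact h5.trans h3
  have h6 := hCb k hkY
  have h7 : ‖k‖ ≤ 1 / 2 * ‖k‖ := by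
    calc ‖k‖ ≤ C * ‖k.1‖ := h6
      _ ≤ C * (1 / (2 * C) * ‖k‖) := mul_le_mul_of_nonneg_left h4 hC.le
      _ = 1 / 2 * ‖k‖ := by field_simp
  have h8 : ‖k‖ = 0 := by
    have := norm_nonneg k
    linarith
  rw [norm_eq_zero] at h8
  rw [← hka, h8, map_zero]

/-- **(*)** for short times. -/
theorem star_short (h : GFlow F S A K K₂ Φ) (hdim : Module.finrank ℝ E = Module.finrank ℝ F + n)
    (hn : 2 ≤ n) (hsec : Secure S) (hm : 2 ≤ m) {w : E × E} (hw : w ∈ OO Φ S m)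
    (ht : Tr Φ S w) : ∀ᶠ t in 𝓝[>] (0 : ℝ), Star Φ S (w, Φ t w) := by
  have hR := retRel (Φ := Φ) (S := S) h hdim
  have hU : w ∈ UT S := hw.1.1
  obtain ⟨δ, hδ, hnd⟩ := ndeg_short h w
  have h1 : ∀ᶠ t in 𝓝[>] (0 : ℝ), t < δ :=
    eventually_nhdsWithin_of_eventually_nhds (eventually_lt_nhds hδ)
  filter_upwards [self_mem_nhdsWithin, h1, hE_short h hR hU ht, tr_short h hR hU ht] with t ht0
    htδ hE hT
  have ht0' : (0 : ℝ) < t := ht0
  refine star_graph h hdim hn hsec hm hw ht0' ?_ ht hT hE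
  intro ξ _ hξ
  have h2 := hnd.self_of_nhds t ⟨ht0', htδ⟩ ξ
  rw [hξ, norm_zero] at h2
  have h3 : ‖ξ‖ ≤ 0 := by
    by_contra h4
    rw [not_le] at h4
    have h5 : 0 < 1 / 2 * t * ‖ξ‖ := by positivity
    linarith
  exact norm_le_zero_iff.1 h3

/-- The two forms of the identity. -/
theorem is_star_of_star (h : GFlow F S A K K₂ Φ) (hR : RetRel Φ (UT S) c (RR Φ S))
    {p : (E × E) × (E × E)} (hp : p ∈ RR Φ S) (hs : Star Φ S p) :
    Pool.Agent.H21.IS.Star (RR Φ S) p := by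
  obtain ⟨α, hα⟩ := hs
  refine ⟨α, fun e e' he a y b hab ⟨x, hx⟩ => ?_⟩
  refine hα (x, y) hx a b hab e e' ?_
  rcases he with ⟨⟨y₁, h1⟩, ⟨x₁, h2⟩, h3⟩ | ⟨h1, h2, x₁, y₁, h3, ⟨b₁, h4⟩, a₁, h5⟩
  · left
    refine ⟨⟨(e, y₁), h1, rfl⟩, ⟨(x₁, e'), h2, rfl⟩, fun ξ hξ => ?_⟩
    rw [real_inner_comm, h3 ξ.1 ξ.2 hξ, real_inner_comm]
  · right
    have q1 : ((0 : E), e) ∈ ZT (UT S) p.1 := by
      have h6 := map_mem_ZT_univ (R' := UT S) (Θ := (Prod.fst : (E × E) × (E × E) → E × E))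
        contDiff_fst (fun q hq => (hR.sub q hq).1) h4
      rwa [fderiv_fst] at h6
    have q2 : ((0 : E), -e') ∈ ZT (UT S) p.2 := by
      have h6 := map_mem_ZT_univ (R' := UT S) (Θ := (Prod.snd : (E × E) × (E × E) → E × E))
        contDiff_snd (fun q hq => (hR.sub q hq).2) h5
      rwa [fderiv_snd] at h6
    refine ⟨((ver_mem_iff h.sub (hR.sub p hp).1).1 q1).1, ?_, ?_, ?_, (x₁, y₁), h3, ⟨y₁, b₁, h4, ?_⟩,
      ⟨x₁, a₁, h5, ?_⟩⟩
    · rintro _ ⟨k, hk, rfl⟩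
      exact h1 k hk
    · have h7 := ((ver_mem_iff h.sub (hR.sub p hp).2).1 q2).1
      have h8 := (ZT S p.2.1).neg_mem h7
      rwa [neg_neg] at h8
    · rintro _ ⟨k, hk, rfl⟩
      exact h2 k hk
    · show y₁ - y₁ ∈ TT Φ S p.2
      rw [sub_self]; exact (TT Φ S p.2).zero_mem
    · show x₁ - x₁ ∈ TT Φ S p.1
      rw [sub_self]; exact (TT Φ S p.1).zero_mem

/-- The identity in the form of `H21/IS/Star` for short times. -/
theorem is_star_short (h : GFlow F S A K K₂ Φ)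
    (hdim : Module.finrank ℝ E = Module.finrank ℝ F + n)
    (hn : 2 ≤ n) (hsec : Secure S) (hm : 2 ≤ m) {w : E × E} (hw : w ∈ OO Φ S m)
    (ht : Tr Φ S w) :
    ∀ᶠ t in 𝓝[>] (0 : ℝ), Pool.Agent.H21.IS.Star (RR Φ S) (w, Φ t w) := by
  have hR := retRel (Φ := Φ) (S := S) h hdim
  filter_upwards [star_short h hdim hn hsec hm hw ht] with t h1
  exact is_star_of_star h hR (hR.mem_flow hw.1.1 t) h1

end Pool.Agent.H77.SN
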