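import Pool.Agent.H77.SN.Sec3D
import Pool.Agent.H77.SN.Short
import Pool.Agent.H77.SN.StarShort
import Pool.Agent.H21.IS.Main

/-!
# Section 4: the first order structure of Y
-/

set_option autoImplicit false
set_option linter.unusedSectionVars false
set_option linter.unusedVariables false

open scoped InnerProductSpace Topology ContDiff
open Set Filter

namespace Pool.Agent.H77.SN

open Pool.Agent.H91.GE hiding G1 G11 Nondeg Br exists_br cF smooth_cF Cfg mem_TSet_of_map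
open Pool.Agent.H59.LV Pool.Agent.H59.ND Pool.Agent.H59.Zar

variable {E F : Type*} [NormedAddCommGroup E] [InnerProductSpace ℝ E] [FiniteDimensional ℝ E]
  [NormedAddCommGroup F] [InnerProductSpace ℝ F] [FiniteDimensional ℝ F]
  {S : Set E} {A : E × E → E} {K K₂ : NNReal} {Φ : ℝ → E × E → E × E} {n m : ℕ}

/-- Transversality is an open condition. -/
theorem tr_open (h : GFlow F S A K K₂ Φ) (hdim : Module.finrank ℝ E = Module.finrank ℝ F + n)
    {w : E × E} (hw : w ∈ OO Φ S m) (ht : Tr Φ S w) : ∀ᶠ w' in 𝓝[UT S] w, Tr Φ S w' := by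
  have hR := retRel (Φ := Φ) (S := S) h hdim
  obtain ⟨C, hC, hCb⟩ : ∃ C : ℝ, 0 < C ∧ ∀ k ∈ YY Φ S w, ‖k‖ ≤ C * ‖k.1‖ := by
    let f : YY Φ S w →ₗ[ℝ] E := (LinearMap.fst ℝ E E).comp (YY Φ S w).subtype
    have hker : LinearMap.ker f = ⊥ := by
      refine (LinearMap.ker_eq_bot').2 fun k hk => ?_
      exact Subtype.ext (ht k.1 k.2 hk)
    obtain ⟨C, hC, hf⟩ := f.exists_antilipschitzWith hker
    refine ⟨C, hC, fun k hk => ?_⟩
    have h1 := hf.le_mul_dist ⟨k, hk⟩ 0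
    rw [map_zero, dist_zero_right, dist_zero_right] at h1
    exact h1
  obtain ⟨Q, ⟨O, hO, hQs⟩, hQ⟩ := hR.exists_projY hw.1
  have hQc : ContinuousAt Q w := (hQs.continuousOn w (mem_of_mem_nhds hO)).continuousAt hO
  have hU : w ∈ UT S := hw.1.1
  have hQw := hQ.self_of_nhdsWithin hU
  have hε : (0 : ℝ) < 1 / (2 * (1 + C)) := by positivity
  have hev : ∀ᶠ w' in 𝓝 w, ‖Q w' - Q w‖ < 1 / (2 * (1 + C)) := by
    have h1 : Tendsto (fun w' => ‖Q w' - Q w‖) (𝓝 w) (𝓝 0) :=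
      tendsto_iff_norm_sub_tendsto_zero.1 hQc.tendsto
    exact h1.eventually_lt_const hε
  filter_upwards [hQ, nhdsWithin_le_nhds hev] with w' h1 h2
  intro k hk hk1
  have h3 : Q w' k = k := h1.2 k hk
  have h4 : Q w k ∈ YY Φ S w := hQw.1 k
  have h5 : ‖k - Q w k‖ ≤ 1 / (2 * (1 + C)) * ‖k‖ := by
    have h6 := (Q w' - Q w).le_opNorm k
    rw [ContinuousLinearMap.sub_apply, h3] at h6
    exact h6.trans (mul_le_mul_of_nonneg_right h2.le (norm_nonneg _))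
  have h6 : ‖(Q w k).1‖ ≤ 1 / (2 * (1 + C)) * ‖k‖ := by
    have h7 : ‖(k - Q w k).1‖ ≤ ‖k - Q w k‖ := norm_fst_le _
    rw [Prod.fst_sub, hk1, zero_sub, norm_neg] at h7
    exact h7.trans h5
  have h7 := hCb _ h4
  have h8 : ‖k‖ ≤ ‖k - Q w k‖ + ‖Q w k‖ := by
    calc ‖k‖ = ‖(k - Q w k) + Q w k‖ := by rw [sub_add_cancel]
      _ ≤ _ := norm_add_le _ _
  have h9 : ‖k‖ ≤ 1 / 2 * ‖k‖ := by
    calc ‖k‖ ≤ 1 / (2 * (1 + C)) * ‖k‖ + C * (1 / (2 * (1 + C)) * ‖k‖) :=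
          h8.trans (add_le_add h5 (h7.trans (mul_le_mul_of_nonneg_left h6 hC.le)))
      _ = 1 / 2 * ‖k‖ := by field_simp
  have h10 : ‖k‖ = 0 := by
    have := norm_nonneg k
    linarith
  exact norm_eq_zero.1 h10

/-- **Theorem 1.** -/
theorem first_order (h : GFlow F S A K K₂ Φ) (hdim : Module.finrank ℝ E = Module.finrank ℝ F + n)
    (hn : 2 ≤ n) (hsec : Secure S) (hm : 2 ≤ m) {w : E × E} (hw : w ∈ OO Φ S m)
    (ht : Tr Φ S w) :
    ∃ c : ℝ, ∀ k ∈ YY Φ S w, ⟪k.1, w.2⟫_ℝ = 0 → tanv A w k = c • k.1 := by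
  have hR := retRel (Φ := Φ) (S := S) h hdim
  have hU : w ∈ UT S := hw.1.1
  obtain ⟨l, hl⟩ := Pool.Agent.H21.IS.isotropic h hR hdim hU ht
    (is_star_short h hdim hn hsec hm hw ht)
  refine ⟨l, fun k hk h0 => ?_⟩
  have hkU := hR.Y_le hU hk
  have h1 : k.1 ∈ ZT S w.1 := fst_mem_TS hU hkU
  have h2 : tanv A w k ∈ ZT S w.1 := tan_part h hU hkU
  have h3 : tanv A w k - l • k.1 ∈ ZT S w.1 := (ZT S w.1).sub_mem h2 ((ZT S w.1).smul_mem _ h1)
  have h4 : ⟪tanv A w k - l • k.1, tanv A w k - l • k.1⟫_ℝ = 0 := by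
    nth_rewrite 1 [inner_sub_left]
    rw [inner_tanv h hU h1 h3, real_inner_smul_left, hl k hk h0 _ h3, sub_self]
  exact sub_eq_zero.1 (inner_self_eq_zero.1 h4)

end Pool.Agent.H77.SN
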