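import Pool.Agent.H77.SN.Sec5A
import Pool.Agent.H15.S5.Dvert2

/-!
# Section 5: the derivative of the crossing function, m = 2
-/

set_option autoImplicit false
set_option linter.unusedSectionVars false
set_option linter.unusedVariables false

open scoped InnerProductSpace Topology ContDiff
open Set Filter

namespace Pool.Agent.H77.SN

open Pool.Agent.H91.GE hiding G1 G11 Nondeg Br exists_br cF smooth_cF Cfg mem_TSet_of_map
open Pool.Agent.H59.LV Pool.Agent.H59.ND Pool.Agent.H59.Zar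

variable {E F : Type*} [NormedAddCommGroup E] [InnerProductSpace ℝ E] [FiniteDimensional ℝ E]
  [NormedAddCommGroup F] [InnerProductSpace ℝ F] [FiniteDimensional ℝ F]
  {S : Set E} {A : E × E → E} {K K₂ : NNReal} {Φ : ℝ → E × E → E × E} {n m : ℕ}

/-- **(5.2), `m = 2`**, by the identity (S). -/
theorem Rho.dvert2 (h : GFlow F S A K K₂ Φ) (hdim : Module.finrank ℝ E = Module.finrank ℝ F + n)
    (hn : 2 ≤ n) (hsec : Secure S) {ρ : E × E → ℝ} {O : Set (E × E)} (hr : Rho A Φ S 2 ρ O)
    {w : E × E} (hw : w ∈ O) (hU : w ∈ UT S) (h0 : ρ w = 0) {k : E × E} (hk : k ∈ YY Φ S w)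
    (hk0 : k.1 = 0) : fderiv ℝ ρ w k = 0 :=
  Pool.Agent.H15.S5.dvert2 h hdim hn hsec hr hw hU h0 hk hk0

end Pool.Agent.H77.SN
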