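import Pool.Agent.H77.SN.Sec5B
import Pool.Agent.H77.SN.Sec5C
import Pool.Agent.H77.SN.Sec5D

/-!
# Section 5: all good points are transverse
-/

set_option autoImplicit false
set_option linter.unusedSectionVars false
set_option linter.unusedVariables false

open scoped InnerProductSpace Topology ContDiff
open Set Filter

namespace Pool.Agent.H77.SN

open Pool.Agent.H91.GE hiding G1 G11 Nondeg Br exists_br cF smooth_cF Cfg mem_TSet_of_map
open Pool.Agent.H59.LV Pool.Agent.H59.ND Pool.Agent.H59.Zar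

variable {E F : Type*} [NormedAddCommGroup E] [InnerProductSpace ℝ E] [FiniteDimensional ℝ E]
  [NormedAddCommGroup F] [InnerProductSpace ℝ F] [FiniteDimensional ℝ F]
  {S : Set E} {A : E × E → E} {K K₂ : NNReal} {Φ : ℝ → E × E → E × E} {n m : ℕ}

/-- **Section 5.** There are no crossings. -/
theorem all_tr (h : GFlow F S A K K₂ Φ) (hdim : Module.finrank ℝ E = Module.finrank ℝ F + n)
    (hn : 2 ≤ n) (hsec : Secure S) (hm : 2 ≤ m) {w : E × E} (hw : w ∈ OO Φ S m) : Tr Φ S w := by
  by_contra hc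
  obtain ⟨ρ, O, hr, hwO, h0⟩ := exists_rho h hdim hn hsec hm hw hc
  have hU : w ∈ UT S := hw.1.1
  refine hr.focus h hdim hsec hm (fun w' hw' hU' h0' k hk hk0 => ?_) hwO hU h0
  rcases Nat.lt_or_ge m 3 with h3 | h3
  · obtain rfl : m = 2 := by omega
    exact hr.dvert2 h hdim hn hsec hw' hU' h0' hk hk0
  · exact hr.dvert3 h hdim h3 hw' hU' h0' hk hk0

end Pool.Agent.H77.SN
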