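import Pool.Agent.H77.SN.Sec5A

/-!
# Section 5: the derivative of the crossing function, m at least 3
-/

set_option autoImplicit false
set_option linter.unusedSectionVars false
set_option linter.unusedVariables false

open scoped InnerProductSpace Topology ContDiff
open Set Filter

namespace Pool.Agent.H77.SN

open Pool.Agent.H91.GE hiding G1 G11 Nondeg Br exists_br cF smooth_cF Cfg mem_TSet_of_map
open Pool.Agent.H59.LV Pool.Agent.H59.ND Pool.Agent.H59.Zar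

variable {E F : Type*} [NormedAddCommGroup E] [InnerProductSpace ℝ E] [FiniteDimensional ℝ E]
  [NormedAddCommGroup F] [InnerProductSpace ℝ F] [FiniteDimensional ℝ F]
  {S : Set E} {A : E × E → E} {K K₂ : NNReal} {Φ : ℝ → E × E → E × E} {n m : ℕ}

/-- The derivative of the equation of `ρ` along a section of `Y`. -/
theorem Rho.deriv_eq (h : GFlow F S A K K₂ Φ) {ρ : E × E → ℝ} {O : Set (E × E)}
    (hr : Rho A Φ S m ρ O) {w : E × E} (hw : w ∈ O) (h0 : ρ w = 0)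
    {B : E × E → E × E} {D : Set (E × E)} (hD : D ∈ 𝓝 w) (hB : ContDiffOn ℝ ∞ B D)
    (hBY : ∀ w' ∈ UT S, w' ∈ D → B w' ∈ YY Φ S w') (hB1 : (B w).1 = 0)
    {a : E × E} (ha : a ∈ ZT (UT S) w) :
    (fderiv ℝ B w a).1 - ⟪(fderiv ℝ B w a).1, w.2⟫_ℝ • w.2 = fderiv ℝ ρ w a • (B w).2 := by
  have hBc : ContDiffAt ℝ ∞ B w := hB.contDiffAt hD
  have hρc : ContDiffOn ℝ ∞ ρ O := hr.smooth
  have hON : O ∈ 𝓝 w := hr.isOpen.mem_nhds hw
  have hU : D ∩ O ∈ 𝓝 w := inter_mem hD hON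
  -- the functions
  have c1 : ContDiffOn ℝ ∞ (fun w' => (B w').1) (D ∩ O) :=
    (contDiff_fst.comp_contDiffOn hB).mono inter_subset_left
  have c2 : ContDiffOn ℝ ∞ (fun w' : E × E => w'.2) (D ∩ O) := contDiff_snd.contDiffOn
  have c3 : ContDiffOn ℝ ∞ (fun w' => ⟪(B w').1, w'.2⟫_ℝ • w'.2) (D ∩ O) :=
    (c1.inner ℝ c2).smul c2
  have c4 : ContDiffOn ℝ ∞ (fun w' => tanv A w' (B w')) (D ∩ O) :=
    (contDiff_tanv h.field.smooth).comp_contDiffOn
      (contDiffOn_id.prodMk (hB.mono inter_subset_left))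
  have c5 : ContDiffOn ℝ ∞ (fun w' => ρ w' • tanv A w' (B w')) (D ∩ O) :=
    (hρc.mono inter_subset_right).smul c4
  have key := fderiv_eq_zero' (R := UT S) (p := w) (a := a)
    (f := fun w' => (B w').1 - ⟪(B w').1, w'.2⟫_ℝ • w'.2 - ρ w' • tanv A w' (B w'))
    hU ((c1.sub c3).sub c5) (fun w' hw' hwD => by
      rw [hr.eq w' hwD.2 hw' (B w') (hBY w' hw' hwD.1), sub_self]) ha
  have d0 : HasFDerivAt B (fderiv ℝ B w) w := (hBc.differentiableAt (by simp)).hasFDerivAt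
  have d1 : HasFDerivAt (fun w' => (B w').1)
      ((ContinuousLinearMap.fst ℝ E E).comp (fderiv ℝ B w)) w :=
    HasFDerivAt.comp w (g := Prod.fst) hasFDerivAt_fst d0
  have d2 : HasFDerivAt (fun w' : E × E => w'.2) (ContinuousLinearMap.snd ℝ E E) w :=
    hasFDerivAt_snd
  have d3 := (d1.inner ℝ d2).smul d2
  have d4 : HasFDerivAt ρ (fderiv ℝ ρ w) w :=
    ((hρc.contDiffAt hON).differentiableAt (by simp)).hasFDerivAt
  have d5 : HasFDerivAt (fun w' => tanv A w' (B w')) (fderiv ℝ (fun w' => tanv A w' (B w')) w) w :=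
    ((c4.contDiffAt hU).differentiableAt (by simp)).hasFDerivAt
  have d6 := (d1.sub d3).sub (d4.smul d5)
  have d7 : HasFDerivAt (fun w' => (B w').1 - ⟪(B w').1, w'.2⟫_ℝ • w'.2
    - ρ w' • tanv A w' (B w')) _ w := d6
  rw [d7.fderiv] at key
  have hT : tanv A w (B w) = (B w).2 := by
    have e1 : B w = ((0, (B w).2) : E × E) := Prod.ext hB1 rfl
    rw [e1, tanv_vert]
  simp only [ContinuousLinearMap.sub_apply, ContinuousLinearMap.add_apply,
    ContinuousLinearMap.smul_apply, ContinuousLinearMap.comp_apply,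
    ContinuousLinearMap.smulRight_apply, ContinuousLinearMap.prod_apply,
    ContinuousLinearMap.coe_fst', ContinuousLinearMap.coe_snd', fderivInnerCLM_apply, hB1, h0,
    inner_zero_left, zero_smul, zero_add, hT] at key
  exact sub_eq_zero.1 key

/-- **(5.2), `m ≥ 3`**, by involutivity. -/
theorem Rho.dvert3 (h : GFlow F S A K K₂ Φ) (hdim : Module.finrank ℝ E = Module.finrank ℝ F + n)
    (hm : 3 ≤ m) {ρ : E × E → ℝ} {O : Set (E × E)} (hr : Rho A Φ S m ρ O) {w : E × E} (hw : w ∈ O)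
    (hU : w ∈ UT S) (h0 : ρ w = 0) {k : E × E} (hk : k ∈ YY Φ S w) (hk0 : k.1 = 0) :
    fderiv ℝ ρ w k = 0 := by
  have hR := retRel h hdim
  have hG : w ∈ GoodPt (UT S) (RR Φ S) := (hr.good w hw hU).1
  -- a second vertical vector
  obtain ⟨b, hb, hb0, hbk⟩ : ∃ b ∈ YY Φ S w, b.1 = 0 ∧ b ∉ Submodule.span ℝ {k} := by
    have hd : Module.finrank ℝ (YY Φ S w) = m := (hr.good w hw hU).2
    let T : YY Φ S w →ₗ[ℝ] ℝ :=
      (innerSL ℝ w.2).toLinearMap ∘ₗ (LinearMap.fst ℝ E E) ∘ₗ (YY Φ S w).subtype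
    have hT : ∀ b : YY Φ S w, T b = ⟪w.2, (b : E × E).1⟫_ℝ := fun b => rfl
    have h1 := LinearMap.finrank_range_add_finrank_ker T
    have h2 : Module.finrank ℝ (LinearMap.range T) ≤ 1 := by
      have := Submodule.finrank_le (LinearMap.range T)
      rwa [Module.finrank_self] at this
    by_contra hcon
    push Not at hcon
    have h3 : (LinearMap.ker T).map (YY Φ S w).subtype ≤ Submodule.span ℝ {k} := by
      rintro _ ⟨b, hb, rfl⟩
      have hb' : ⟪w.2, (b : E × E).1⟫_ℝ = 0 := hb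
      refine hcon b b.2 ?_
      rw [hr.vert hw hU h0 b.2, real_inner_comm, hb', zero_smul]
    have h4 := Submodule.finrank_mono h3
    rw [Submodule.finrank_map_subtype_eq] at h4
    have h5 := finrank_span_le_card (R := ℝ) ({k} : Set (E × E))
    rw [Set.toFinset_singleton, Finset.card_singleton] at h5
    omega
  obtain ⟨Q, ⟨O₁, hO₁, hQ⟩, hQ'⟩ := hR.exists_projY hG
  obtain ⟨O₂, hO₂, hQ₂⟩ := mem_nhdsWithin_iff_exists_mem_nhds_inter.1 hQ'
  have hN : O₁ ∩ O₂ ∈ 𝓝 w := inter_mem hO₁ hO₂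
  have hB : ∀ c : E × E, ContDiffOn ℝ ∞ (fun w' => Q w' c) (O₁ ∩ O₂) := fun c =>
    (hQ.mono inter_subset_left).clm_apply contDiffOn_const
  have hBY : ∀ c : E × E, ∀ w' ∈ UT S, w' ∈ O₁ ∩ O₂ → Q w' c ∈ YY Φ S w' := fun c w' hw' hD =>
    (hQ₂ ⟨hD.2, hw'⟩).1 c
  have hself : ∀ c ∈ YY Φ S w, Q w c = c := fun c hc =>
    (hQ₂ ⟨mem_of_mem_nhds hO₂, hU⟩).2 c hc
  have hinv := hR.involutive hG hN (hB k) (hB b) (hBY k) (hBY b)
  simp only [hself k hk, hself b hb] at hinv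
  have hv := hr.vert hw hU h0 hinv
  have hkU : k ∈ ZT (UT S) w := hR.Y_le hU hk
  have hbU : b ∈ ZT (UT S) w := hR.Y_le hU hb
  have e1 := hr.deriv_eq h hw h0 hN (hB b) (hBY b) (by rw [hself b hb, hb0]) hkU
  have e2 := hr.deriv_eq h hw h0 hN (hB k) (hBY k) (by rw [hself k hk, hk0]) hbU
  rw [hself b hb] at e1
  rw [hself k hk] at e2
  by_contra hne
  apply hbk
  rw [Submodule.mem_span_singleton]
  refine ⟨(fderiv ℝ ρ w k)⁻¹ * fderiv ℝ ρ w b, ?_⟩
  have e3 : fderiv ℝ ρ w k • b.2 = fderiv ℝ ρ w b • k.2 := by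
    rw [← e1, ← e2]
    rw [Prod.fst_sub, inner_sub_left, sub_smul] at hv
    have e4 := sub_eq_zero.2 hv
    rw [← sub_eq_zero, ← e4]
    abel
  refine Prod.ext ?_ ?_
  · rw [Prod.smul_fst, hk0, hb0, smul_zero]
  · rw [Prod.smul_snd, mul_smul, ← e3, smul_smul, inv_mul_cancel₀ hne, one_smul]

end Pool.Agent.H77.SN
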